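import Mathlib

/-!
# Layered groups

`Lay Q`: for every finite nonempty `S ⊆ Q` one can choose `s q ∈ S` such that the relation
`q ≺ q'` (`q ≠ q'` and `q * s q ∈ q' S`) is well-founded. Torsion-free abelian groups are layered
and the property passes to extensions.
-/

set_option autoImplicit false

namespace Pool.Agent.H40C

/-- `q` must be treated before `q'`. -/
def LayRel {Q : Type} [Group Q] (S : Finset Q) (s : Q → Q) (q q' : Q) : Prop :=
  q ≠ q' ∧ ∃ t ∈ S, q * s q = q' * t

/-- Layered groups. -/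
def Lay (Q : Type) [Group Q] : Prop :=
  ∀ S : Finset Q, S.Nonempty → ∃ s : Q → Q, (∀ q, s q ∈ S) ∧ WellFounded (LayRel S s)

theorem Lay.of_subsingleton (Q : Type) [Group Q] [Subsingleton Q] : Lay Q := by
  rintro S ⟨s, hs⟩
  refine ⟨fun _ => s, fun _ => hs, ⟨fun q => ⟨q, ?_⟩⟩⟩
  rintro q' ⟨h, -⟩
  exact absurd (Subsingleton.elim _ _) h

theorem Lay.of_injective {H Q : Type} [Group H] [Group Q] (f : H →* Q)
    (hf : Function.Injective f) (h : Lay Q) : Lay H := by
  classical
  intro S hS
  obtain ⟨s, hs, hwf⟩ := h (S.image f) (hS.image f)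
  have h1 : ∀ q : H, ∃ t ∈ S, f t = s (f q) := fun q => by
    have := hs (f q)
    rw [Finset.mem_image] at this
    exact this
  choose s' hs' hs'' using h1
  refine ⟨s', hs', ?_⟩
  refine Subrelation.wf (r := InvImage (LayRel (S.image f) s) f) ?_ (InvImage.wf f hwf)
  rintro q q' ⟨hne, t, ht, hq⟩
  refine ⟨fun h => hne (hf h), f t, Finset.mem_image_of_mem f ht, ?_⟩
  rw [← hs'', ← map_mul, ← map_mul, hq]

/-- Locality. -/
theorem Lay.of_local {Q : Type} [Group Q]
    (h : ∀ T : Finset Q, Lay (Subgroup.closure (T : Set Q))) : Lay Q := by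
  classical
  rintro S ⟨s₀, hs₀⟩
  set T : Finset Q := S.image (fun s => s * s₀⁻¹) with hT
  set H : Subgroup Q := Subgroup.closure (T : Set Q) with hH
  have hTH : ∀ t ∈ T, t ∈ H := fun t ht => Subgroup.subset_closure (by exact_mod_cast ht)
  have hSH : ∀ s ∈ S, s * s₀⁻¹ ∈ H := fun s hs => hTH _ (Finset.mem_image_of_mem _ hs)
  let T' : Finset H := S.attach.image (fun s => ⟨s.1 * s₀⁻¹, hSH s.1 s.2⟩)
  have hT'ne : T'.Nonempty := ⟨⟨s₀ * s₀⁻¹, hSH s₀ hs₀⟩, by
    rw [Finset.mem_image]
    exact ⟨⟨s₀, hs₀⟩, Finset.mem_attach _ _, rfl⟩⟩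
  obtain ⟨σ, hσ, hwf⟩ := h T T' hT'ne
  let c : Q → Q := fun q => (QuotientGroup.mk (s := H) q).out
  have hc : ∀ q, (c q)⁻¹ * q ∈ H := fun q => by
    have := QuotientGroup.mk_out_eq_mul H q
    obtain ⟨k, hk⟩ := this
    have : c q = q * k := hk
    rw [this]
    simp
  let hh : Q → H := fun q => ⟨(c q)⁻¹ * q, hc q⟩
  refine ⟨fun q => (σ (hh q) : Q) * s₀, fun q => ?_, ?_⟩
  · have := hσ (hh q)
    rw [Finset.mem_image] at this
    obtain ⟨s, -, hs⟩ := this
    show (σ (hh q) : Q) * s₀ ∈ S
    rw [← hs]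
    simp
  · refine Subrelation.wf (r := InvImage (LayRel T' σ) hh) ?_ (InvImage.wf hh hwf)
    rintro q q' ⟨hne, t, ht, hq⟩
    have h1 : q * (σ (hh q) : Q) = q' * (t * s₀⁻¹) := by
      rw [← mul_assoc, ← hq]
      group
    have h2 : q⁻¹ * q' ∈ H := by
      have : q⁻¹ * q' = (σ (hh q) : Q) * (t * s₀⁻¹)⁻¹ := by
        rw [eq_mul_inv_iff_mul_eq, mul_assoc, ← h1]
        group
      rw [this]
      exact H.mul_mem (σ (hh q)).2 (H.inv_mem (hSH t ht))
    have h3 : c q = c q' := by
      simp only [c]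
      rw [(QuotientGroup.eq).2 h2]
    refine ⟨fun h => hne ?_, ⟨t * s₀⁻¹, hSH t ht⟩, ?_, ?_⟩
    · have := congrArg Subtype.val h
      simp only [hh, h3] at this
      exact mul_left_cancel this
    · rw [Finset.mem_image]
      exact ⟨⟨t, ht⟩, Finset.mem_attach _ _, rfl⟩
    · ext
      simp only [hh, Subgroup.coe_mul]
      have h4 : (c q)⁻¹ * q * (σ (hh q) : Q) = (c q)⁻¹ * q' * (t * s₀⁻¹) := by
        rw [mul_assoc, h1, ← mul_assoc]
      rw [← h3]
      exact h4

/-- Extensions. -/
theorem Lay.of_ext {P B : Type} [Group P] [Group B] (f : P →* B) (hB : Lay B)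
    (hK : Lay f.ker) : Lay P := by
  classical
  intro S hS
  obtain ⟨sb, hsb, hwfB⟩ := hB (S.image f) (hS.image f)
  -- for b in `S.image f` a base point
  have h1 : ∀ b : B, ∃ s₀ : P, b ∈ S.image f → (s₀ ∈ S ∧ f s₀ = b) := by
    intro b
    by_cases hb : b ∈ S.image f
    · obtain ⟨s, hs, hfs⟩ := Finset.mem_image.1 hb
      exact ⟨s, fun _ => ⟨hs, hfs⟩⟩
    · exact ⟨1, fun h => absurd h hb⟩
  choose s₀ hs₀ using h1
  let T : B → Finset f.ker := fun b => (Finset.univ : Finset S).biUnion fun s =>
    if h : s.1 * (s₀ b)⁻¹ ∈ f.ker then {⟨s.1 * (s₀ b)⁻¹, h⟩} else ∅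
  have hTmem : ∀ b (k : f.ker), k ∈ T b ↔ ∃ s ∈ S, s * (s₀ b)⁻¹ = (k : P) := by
    intro b k
    simp only [T, Finset.mem_biUnion, Finset.mem_univ, true_and, Subtype.exists]
    constructor
    · rintro ⟨s, hs, h⟩
      split_ifs at h with h'
      · rw [Finset.mem_singleton] at h
        exact ⟨s, hs, by rw [h]⟩
      · simp at h
    · rintro ⟨s, hs, h⟩
      refine ⟨s, hs, ?_⟩
      have h' : s * (s₀ b)⁻¹ ∈ f.ker := by rw [h]; exact k.2
      rw [dif_pos h', Finset.mem_singleton]
      ext
      exact h.symm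
  have h2 : ∀ b : B, ∃ σ : f.ker → f.ker, b ∈ S.image f →
      ((∀ k, σ k ∈ T b) ∧ WellFounded (LayRel (T b) σ)) := by
    intro b
    by_cases hb : b ∈ S.image f
    · have hne : (T b).Nonempty := ⟨1, (hTmem b 1).2 ⟨s₀ b, (hs₀ b hb).1, by simp⟩⟩
      obtain ⟨σ, h, h'⟩ := hK (T b) hne
      exact ⟨σ, fun _ => ⟨h, h'⟩⟩
    · exact ⟨id, fun h => absurd h hb⟩
  choose σ hσ using h2
  -- section
  have h3 : ∀ b : B, ∃ c : P, (∃ p, f p = b) → f c = b := by
    intro b
    by_cases hb : ∃ p, f p = b
    · obtain ⟨p, hp⟩ := hb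
      exact ⟨p, fun _ => hp⟩
    · exact ⟨1, fun h => absurd h hb⟩
  choose c hc using h3
  let k : P → f.ker := fun p => ⟨(c (f p))⁻¹ * p, by
    rw [MonoidHom.mem_ker, map_mul, map_inv, hc (f p) ⟨p, rfl⟩]
    simp⟩
  have hk : ∀ p, p = c (f p) * (k p : P) := fun p => by simp [k]
  refine ⟨fun p => (σ (sb (f p)) (k p) : P) * s₀ (sb (f p)), fun p => ?_, ?_⟩
  · have h4 := (hσ _ (hsb (f p))).1 (k p)
    obtain ⟨s, hs, h⟩ := (hTmem _ _).1 h4
    show (σ (sb (f p)) (k p) : P) * s₀ (sb (f p)) ∈ S
    rw [← h]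
    simpa using hs
  · -- well-foundedness
    have key : ∀ b : B, ∀ p : P, f p = b → Acc (LayRel S fun p =>
        (σ (sb (f p)) (k p) : P) * s₀ (sb (f p))) p := by
      intro b
      induction b using hwfB.induction with
      | h b ihb =>
        have inner : ∀ κ : f.ker, ∀ p : P, f p = b → k p = κ → Acc (LayRel S fun p =>
            (σ (sb (f p)) (k p) : P) * s₀ (sb (f p))) p := by
          intro κ
          induction κ using (hσ (sb b) (hsb b)).2.induction with
          | h κ ihκ =>
            intro p hp hkp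
            refine ⟨p, ?_⟩
            rintro q ⟨hne, t, ht, hq⟩
            by_cases hfq : f q = b
            · -- same fibre
              have h5 : f t = sb b := by
                have := congrArg f hq
                simp only [map_mul, hp, hfq] at this
                have h6 : f (s₀ (sb b)) = sb b := (hs₀ _ (hsb b)).2
                rw [h6, MonoidHom.mem_ker.1 (σ (sb b) (k q)).2, one_mul] at this
                exact (mul_left_cancel this).symm
              have h7 : t * (s₀ (sb b))⁻¹ ∈ f.ker := by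
                rw [MonoidHom.mem_ker, map_mul, map_inv, h5, (hs₀ _ (hsb b)).2]
                simp
              refine ihκ (k q) ?_ q hfq rfl
              refine ⟨fun h => hne ?_, ⟨t * (s₀ (sb b))⁻¹, h7⟩, (hTmem _ _).2 ⟨t, ht, rfl⟩, ?_⟩
              · rw [hk q, hk p, hfq, hp, h, hkp]
              · ext
                simp only [Subgroup.coe_mul]
                have h8 : q * (σ (sb b) (k q) : P) = p * (t * (s₀ (sb b))⁻¹) := by
                  have hq' : q * ((σ (sb b) (k q) : P) * s₀ (sb b)) = p * t := by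
                    rw [← hq]
                    show _ = q * ((σ (sb (f q)) (k q) : P) * s₀ (sb (f q)))
                    rw [hfq]
                  rw [← mul_assoc, ← hq']
                  group
                rw [← hkp]
                apply mul_left_cancel (a := c b)
                calc c b * ((k q : P) * (σ (sb b) (k q) : P)) = q * (σ (sb b) (k q) : P) := by
                      rw [← mul_assoc]
                      congr 1
                      rw [← hfq]
                      exact (hk q).symm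
                  _ = p * (t * (s₀ (sb b))⁻¹) := h8
                  _ = c b * ((k p : P) * (t * (s₀ (sb b))⁻¹)) := by
                      rw [← mul_assoc (c b)]
                      congr 1
                      rw [← hp]
                      exact hk p
            · -- smaller fibre
              refine ihb (f q) ?_ q rfl
              refine ⟨hfq, f t, Finset.mem_image_of_mem f ht, ?_⟩
              have := congrArg f hq
              simp only [map_mul, hp] at this
              rw [(hs₀ _ (hsb (f q))).2, MonoidHom.mem_ker.1 (σ (sb (f q)) (k q)).2,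
                one_mul] at this
              exact this
        exact fun p hp => inner (k p) p hp rfl
    exact ⟨fun p => key (f p) p rfl⟩

/-- A unique product `a * s` with `a ≠ 1`. -/
theorem Lay.exists_unique_prod {Q : Type} [Group Q] (h : Lay Q) (A S : Finset Q)
    (hS : S.Nonempty) {a₀ : Q} (ha₀ : a₀ ∈ A) (ha₀' : a₀ ≠ 1) :
    ∃ a ∈ A, a ≠ 1 ∧ ∃ s ∈ S, ∀ a' ∈ A, ∀ s' ∈ S, a * s = a' * s' → a = a' := by
  classical
  obtain ⟨σ, hσ, hwf⟩ := h S hS
  -- the rank
  have : IsWellFounded Q (LayRel S σ) := ⟨hwf⟩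
  let ρ : Q → Ordinal := IsWellFounded.rank (LayRel S σ)
  have hρ : ∀ q q', LayRel S σ q q' → ρ q < ρ q' := fun q q' h =>
    IsWellFounded.rank_lt_of_rel h
  -- some `g` with `ρ g ≤ ρ (g a₀)`
  have h1 : ∃ g : Q, ρ g ≤ ρ (g * a₀) := by
    by_contra hcon
    push Not at hcon
    have : StrictAnti (fun n : ℕ => ρ (a₀ ^ n)) :=
      strictAnti_nat_of_succ_lt fun n => by
        have := hcon (a₀ ^ n)
        rwa [← pow_succ] at this
    exact not_strictAnti_of_wellFoundedLT _ this
  obtain ⟨g, hg⟩ := h1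
  let B := A.filter (· ≠ 1)
  have hB : B.Nonempty := ⟨a₀, Finset.mem_filter.2 ⟨ha₀, ha₀'⟩⟩
  obtain ⟨a, haB, hamax⟩ := Finset.exists_max_image B (fun a => ρ (g * a)) hB
  obtain ⟨haA, ha1⟩ := Finset.mem_filter.1 haB
  refine ⟨a, haA, ha1, σ (g * a), hσ _, fun a' ha' s' hs' heq => ?_⟩
  by_contra hne
  have h2 : LayRel S σ (g * a) (g * a') := by
    refine ⟨fun h => hne (mul_left_cancel h), s', hs', ?_⟩
    rw [mul_assoc, heq, mul_assoc]
  have h3 := hρ _ _ h2
  have h4 : ρ (g * a') ≤ ρ (g * a) := by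
    by_cases h5 : a' = 1
    · subst h5
      rw [mul_one]
      exact hg.trans (hamax a₀ (Finset.mem_filter.2 ⟨ha₀, ha₀'⟩))
    · exact hamax a' (Finset.mem_filter.2 ⟨ha', h5⟩)
  exact absurd h3 (not_lt.2 h4)

/-- `ℤ^d` is layered. -/
theorem Lay.fin_int (d : ℕ) : Lay (Multiplicative (Fin d → ℤ)) := by
  classical
  intro S hS
  let dot : Multiplicative (Fin d → ℤ) → Multiplicative (Fin d → ℤ) → ℤ :=
    fun q s => ∑ i, q.toAdd i * s.toAdd i
  have h1 : ∀ q, ∃ s ∈ S, ∀ t ∈ S, dot q t ≤ dot q s := fun q =>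
    Finset.exists_max_image S (dot q) hS
  choose s hs hmax using h1
  refine ⟨s, hs, ?_⟩
  let ν : Multiplicative (Fin d → ℤ) → ℤ := fun q => dot q q
  have hν : ∀ q, 0 ≤ ν q := fun q => Finset.sum_nonneg fun i _ => mul_self_nonneg _
  refine Subrelation.wf (r := InvImage (· < ·) (fun q => (ν q).toNat)) ?_
    (InvImage.wf _ wellFounded_lt)
  rintro q q' ⟨hne, t, ht, hq⟩
  have h2 : ∀ i, q'.toAdd i = q.toAdd i + ((s q).toAdd i - t.toAdd i) := by
    intro i
    have := congrFun (congrArg Multiplicative.toAdd hq) i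
    simp only [toAdd_mul, Pi.add_apply] at this
    omega
  have h3 : ν q' = ν q + 2 * (dot q (s q) - dot q t) +
      ∑ i, ((s q).toAdd i - t.toAdd i) * ((s q).toAdd i - t.toAdd i) := by
    simp only [ν, dot, h2]
    rw [← Finset.sum_sub_distrib, Finset.mul_sum, ← Finset.sum_add_distrib,
      ← Finset.sum_add_distrib]
    refine Finset.sum_congr rfl fun i _ => ?_
    ring
  have h4 := hmax q t ht
  have h5 : 0 < ∑ i, ((s q).toAdd i - t.toAdd i) * ((s q).toAdd i - t.toAdd i) := by
    have hex : ∃ i, (s q).toAdd i ≠ t.toAdd i := by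
      by_contra hcon
      push Not at hcon
      apply hne
      apply Multiplicative.toAdd.injective
      funext i
      rw [h2 i, hcon i]
      ring
    obtain ⟨i, hi⟩ := hex
    refine Finset.sum_pos' (fun j _ => mul_self_nonneg _) ⟨i, Finset.mem_univ i, ?_⟩
    exact mul_self_pos.2 (sub_ne_zero.2 hi)
  have h6 : ν q < ν q' := by rw [h3]; linarith
  show (ν q).toNat < (ν q').toNat
  have := hν q
  omega

/-- Torsion-free abelian groups are layered. -/
theorem Lay.of_torsionFree (A : Type) [Group A] (hc : ∀ a b : A, a * b = b * a)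
    (ht : ∀ (a : A) (n : ℕ), 0 < n → a ^ n = 1 → a = 1) : Lay A := by
  classical
  refine Lay.of_local fun T => ?_
  let H := Subgroup.closure (T : Set A)
  let _ : CommGroup H := { (inferInstance : Group H) with
    mul_comm := fun a b => Subtype.ext (hc a b) }
  have hfin : Module.Finite ℤ (Additive H) := by
    rw [Module.Finite.iff_addGroup_fg]
    have : Group.FG H := by
      rw [Group.fg_iff_subgroup_fg]
      exact ⟨T, rfl⟩
    exact AddGroup.fg_iff_mul_fg.2 this
  have htf : Module.IsTorsionFree ℤ (Additive H) := by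
    refine ⟨fun r hr a b hab => ?_⟩
    have hr0 : r ≠ 0 := hr.ne_zero
    have h1 : r • (a - b) = 0 := by
      rw [smul_sub]
      exact sub_eq_zero.2 hab
    have h2 : ((a - b).toMul : H) ^ r.natAbs = 1 := by
      rcases Int.natAbs_eq r with h | h
      · have : ((a - b).toMul : H) ^ r = 1 := congrArg Additive.toMul h1
        rw [h] at this
        exact_mod_cast this
      · have : ((a - b).toMul : H) ^ r = 1 := congrArg Additive.toMul h1
        rw [h, zpow_neg, inv_eq_one] at this
        exact_mod_cast this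
    have h3 : ((a - b).toMul : H) = 1 := by
      apply Subtype.ext
      exact ht _ r.natAbs (Int.natAbs_pos.2 hr0) (by
        have := congrArg Subtype.val h2
        simpa using this)
    have h4 : a - b = 0 := congrArg Additive.ofMul h3
    exact sub_eq_zero.1 h4
  obtain ⟨n, b⟩ := Module.basisOfFiniteTypeTorsionFree' (R := ℤ) (M := Additive H)
  let e : Additive H ≃+ (Fin n → ℤ) := b.equivFun.toAddEquiv
  let g : H →* Multiplicative (Fin n → ℤ) := AddMonoidHom.toMultiplicativeRight e.toAddMonoidHom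
  exact Lay.of_injective g (fun x y hxy => e.injective hxy) (Lay.fin_int n)

end Pool.Agent.H40C
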