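import Mathlib

/-!
# Well-founded elimination

An infinite system of equations, one for each `q : Q`, in the unknowns `C e` (`e : Q`), where the
equation with index `q` involves the unknowns `C (q * p k)`, `k : ι`, and can be solved uniquely
for each of them. If the unknowns `q * p (s q)` can be eliminated in a well-founded order, the
other unknowns can be prescribed arbitrarily and the solution is unique.
-/

set_option autoImplicit false

namespace Pool.Agent.H40C

section

variable {Q Γ ι : Type} [Group Q] [DecidableEq ι]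

/-- The elimination relation for a choice `s : Q → ι` of an unknown in each equation. -/
def ElimRel (p : ι → Q) (s : Q → ι) (q q' : Q) : Prop :=
  q ≠ q' ∧ ∃ k, q * p (s q) = q' * p k

/-- The eliminated unknowns. -/
def Elim (p : ι → Q) (s : Q → ι) (e : Q) : Prop := ∃ q, e = q * p (s q)

theorem elim_inj {p : ι → Q} {s : Q → ι} (hwf : WellFounded (ElimRel p s)) {q q' : Q}
    (h : q * p (s q) = q' * p (s q')) : q = q' := by
  by_contra hne
  have h1 : ElimRel p s q q' := ⟨hne, s q', h⟩
  have h2 : ElimRel p s q' q := ⟨fun h' => hne h'.symm, s q, h.symm⟩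
  exact hwf.asymmetric _ _ h1 h2

theorem exists_unique_solution (p : ι → Q) (hp : Function.Injective p) (s : Q → ι)
    (hwf : WellFounded (ElimRel p s)) (E : Q → (ι → Γ) → Prop)
    (hE : ∀ q D k, ∃! γ, E q (Function.update D k γ)) (g : Q → Γ) :
    ∃! C : Q → Γ, (∀ e, ¬ Elim p s e → C e = g e) ∧ ∀ q, E q (fun k => C (q * p k)) := by
  classical
  -- the solution function
  have hsol : ∀ q (D : ι → Γ), ∃ γ, ∀ γ', E q (Function.update D (s q) γ') ↔ γ' = γ := by
    intro q D
    obtain ⟨γ, h1, h2⟩ := hE q D (s q)
    exact ⟨γ, fun γ' => ⟨fun h => h2 γ' h, fun h => h ▸ h1⟩⟩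
  choose sol hsol using hsol
  have hsol_congr : ∀ q (D D' : ι → Γ), (∀ k, k ≠ s q → D k = D' k) → sol q D = sol q D' := by
    intro q D D' h
    have h1 : Function.update D (s q) (sol q D) = Function.update D' (s q) (sol q D) := by
      funext k
      by_cases hk : k = s q
      · subst hk; simp
      · rw [Function.update_of_ne hk, Function.update_of_ne hk, h k hk]
    have h2 := (hsol q D (sol q D)).2 rfl
    rw [h1] at h2
    exact (hsol q D' (sol q D)).1 h2
  have hE_iff : ∀ q (D : ι → Γ), E q D ↔ D (s q) = sol q D := by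
    intro q D
    have := hsol q D (D (s q))
    rwa [Function.update_eq_self] at this
  -- the relation needed for the recursion
  have hrel : ∀ q k, k ≠ s q → ∀ q', q * p k = q' * p (s q') → ElimRel p s q' q := by
    intro q k hk q' h
    refine ⟨?_, k, h.symm⟩
    rintro rfl
    exact hk (hp (mul_left_cancel h))
  -- recursion
  let F : ∀ q : Q, (∀ q', ElimRel p s q' q → Γ) → Γ := fun q rec =>
    sol q (fun k => if hk : k = s q then g 1 else
      if h : ∃ q', q * p k = q' * p (s q') then rec h.choose (hrel q k hk _ h.choose_spec)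
      else g (q * p k))
  let c : Q → Γ := hwf.fix F
  have hc : ∀ q, c q = sol q (fun k => if k = s q then g 1 else
      if h : ∃ q', q * p k = q' * p (s q') then c h.choose else g (q * p k)) := by
    intro q
    have : c q = F q (fun q' _ => c q') := hwf.fix_eq F q
    rw [this]
    rfl
  let C : Q → Γ := fun e => if h : ∃ q, e = q * p (s q) then c h.choose else g e
  have hC1 : ∀ q, C (q * p (s q)) = c q := by
    intro q
    have h : ∃ q', q * p (s q) = q' * p (s q') := ⟨q, rfl⟩
    simp only [C]
    rw [dif_pos h]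
    congr 1
    exact (elim_inj hwf h.choose_spec).symm
  have hC2 : ∀ e, ¬ Elim p s e → C e = g e := by
    intro e he
    simp only [C]
    rw [dif_neg]
    exact he
  refine ⟨C, ⟨hC2, fun q => ?_⟩, ?_⟩
  · rw [hE_iff, hC1, hc]
    apply hsol_congr
    intro k hk
    rw [if_neg hk]
  · rintro C' ⟨hC'1, hC'2⟩
    have key : ∀ q, C' (q * p (s q)) = C (q * p (s q)) := by
      intro q
      induction q using hwf.induction with
      | h q ih =>
        have h1 := (hE_iff q _).1 (hC'2 q)
        have h2 : C (q * p (s q)) = sol q (fun k => C (q * p k)) := by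
          rw [hC1, hc]
          apply hsol_congr
          intro k hk
          rw [if_neg hk]
        rw [h1, h2]
        apply hsol_congr
        intro k hk
        by_cases h : ∃ q', q * p k = q' * p (s q')
        · obtain ⟨q', hq'⟩ := h
          rw [hq']
          exact ih q' (hrel q k hk q' hq')
        · rw [hC'1 _ h, hC2 _ h]
    funext e
    by_cases h : ∃ q, e = q * p (s q)
    · obtain ⟨q, rfl⟩ := h
      exact key q
    · rw [hC'1 _ h, hC2 _ h]

end

section

variable {Γ : Type} [Group Γ]

/-- `γ` or `γ⁻¹`. -/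
def sg (b : Bool) (γ : Γ) : Γ := if b then γ else γ⁻¹

@[simp] theorem sg_sg (b : Bool) (γ : Γ) : sg b (sg b γ) = γ := by
  cases b <;> simp [sg]

theorem sg_eq_iff (b : Bool) (γ δ : Γ) : sg b γ = δ ↔ γ = sg b δ := by
  constructor
  · rintro rfl; simp
  · rintro rfl; simp

/-- The product `∏ (D k)^(±1) ω k`. -/
def wprod (e : ℕ → Bool) (L : ℕ) (D ω : ℕ → Γ) : Γ :=
  ((List.range L).map fun k => sg (e k) (D k) * ω k).prod

@[simp] theorem wprod_zero (e : ℕ → Bool) (D ω : ℕ → Γ) : wprod e 0 D ω = 1 := by simp [wprod]

theorem wprod_succ (e : ℕ → Bool) (L : ℕ) (D ω : ℕ → Γ) :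
    wprod e (L + 1) D ω = wprod e L D ω * (sg (e L) (D L) * ω L) := by
  simp [wprod, List.range_succ]

theorem wprod_congr (e : ℕ → Bool) (L : ℕ) (D D' ω ω' : ℕ → Γ) (h : ∀ k < L, D k = D' k)
    (h' : ∀ k < L, ω k = ω' k) : wprod e L D ω = wprod e L D' ω' := by
  induction L with
  | zero => simp
  | succ L ih =>
    rw [wprod_succ, wprod_succ, ih (fun k hk => h k (hk.trans (Nat.lt_succ_self L)))
      (fun k hk => h' k (hk.trans (Nat.lt_succ_self L))), h L (Nat.lt_succ_self L),
      h' L (Nat.lt_succ_self L)]

theorem wprod_solve (e : ℕ → Bool) (L : ℕ) (D ω : ℕ → Γ) (k : ℕ) (hk : k < L) (δ : Γ) :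
    ∃! γ, wprod e L (Function.update D k γ) ω = δ := by
  induction L generalizing δ with
  | zero => exact absurd hk (Nat.not_lt_zero k)
  | succ L ih =>
    simp only [wprod_succ]
    rcases Nat.lt_succ_iff_lt_or_eq.1 hk with h | rfl
    · have h1 : ∀ γ, Function.update D k γ L = D L := fun γ =>
        Function.update_of_ne (by omega) _ _
      obtain ⟨γ, h2, h3⟩ := ih h (δ * (sg (e L) (D L) * ω L)⁻¹)
      refine ⟨γ, ?_, fun γ' hγ' => h3 γ' ?_⟩
      · simp only [h1]
        rw [h2]
        group
      · simp only [h1] at hγ' ⊢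
        rw [← hγ']
        group
    · have h1 : ∀ γ, wprod e k (Function.update D k γ) ω = wprod e k D ω := fun γ =>
        wprod_congr e k _ _ _ _ (fun j hj => Function.update_of_ne (by omega) _ _)
          (fun _ _ => rfl)
      simp only [h1, Function.update_self]
      refine ⟨sg (e k) ((wprod e k D ω)⁻¹ * δ * (ω k)⁻¹), ?_, fun γ' hγ' => ?_⟩
      · simp only [sg_sg]
        group
      · rw [← sg_eq_iff]
        rw [← hγ']
        group

end

end Pool.Agent.H40C
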