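import Mathlib
import Pool.Agent.Lib.MP_98022b_h40.Lay
import Pool.Agent.Lib.MP_98022b_h40.Solve

/-!
# The kernel is free

Let `r = ∏_{k<L} x^{e_k} w_k` with `w_k` a word without the letter `x`, and let
`ρ : ⟨X | r⟩ → Q` be a surjection onto a layered group such that the `x`-edges of `r` have
pairwise distinct positions in `Q`. Then `ker ρ` is free.
-/

set_option autoImplicit false

open CategoryTheory CategoryTheory.ActionCategory CategoryTheory.SingleObj Quiver

namespace Pool.Agent.H40C

variable {X : Type}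

/-- `x` or `x⁻¹`. -/
def lt (x : X) (b : Bool) : FreeGroup X := if b then FreeGroup.of x else (FreeGroup.of x)⁻¹

/-- The `k`-th block `x^{e k} w k`. -/
def blk (x : X) (e : ℕ → Bool) (w : ℕ → FreeGroup X) (k : ℕ) : FreeGroup X := lt x (e k) * w k

/-- The product of the first `n` blocks. -/
def pre (x : X) (e : ℕ → Bool) (w : ℕ → FreeGroup X) (n : ℕ) : FreeGroup X :=
  ((List.range n).map (blk x e w)).prod

@[simp] theorem pre_zero (x : X) (e : ℕ → Bool) (w : ℕ → FreeGroup X) : pre x e w 0 = 1 := by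
  simp [pre]

theorem pre_succ (x : X) (e : ℕ → Bool) (w : ℕ → FreeGroup X) (n : ℕ) :
    pre x e w (n + 1) = pre x e w n * blk x e w n := by
  simp [pre, List.range_succ]

/-- The subgroup of words without the letter `x`. -/
def without (x : X) : Subgroup (FreeGroup X) := Subgroup.closure (FreeGroup.of '' {x}ᶜ)

/-- The start vertex of the `k`-th `x`-edge. -/
def pos (x : X) (e : ℕ → Bool) (w : ℕ → FreeGroup X) (k : ℕ) : FreeGroup X :=
  pre x e w k * (if e k then 1 else (FreeGroup.of x)⁻¹)

/-- The underlying set of `Q` with the action of `G` by left multiplication. -/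
def Cov {G Q : Type} [Group G] [Group Q] (_ρ : G →* Q) : Type := Q

instance {G Q : Type} [Group G] [Group Q] (ρ : G →* Q) : MulAction G (Cov ρ) where
  smul g q := (ρ g * (show Q from q) : Q)
  one_smul q := by
    show (ρ 1 * (show Q from q) : Q) = q
    rw [map_one, one_mul]
  mul_smul g h q := by
    show (ρ (g * h) * (show Q from q) : Q) = ρ g * (ρ h * (show Q from q))
    rw [map_mul, mul_assoc]

theorem Cov.smul_def {G Q : Type} [Group G] [Group Q] (ρ : G →* Q) (g : G) (q : Cov ρ) :
    g • q = (ρ g * (show Q from q) : Q) := rfl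

section

variable {G Q : Type} [Group G] [Group Q] (mk : FreeGroup X →* G) (ρ : G →* Q)
  {Γ : Type} [Group Γ]

/-- The homomorphism of the free group defined by labels. -/
def lab (c : X → Q → Γ) : FreeGroup X →* (Cov ρ → Γ) ⋊[mulAutArrow] G :=
  FreeGroup.lift fun y => ⟨c y, mk (FreeGroup.of y)⟩

theorem lab_of (c : X → Q → Γ) (y : X) :
    lab mk ρ c (FreeGroup.of y) = ⟨c y, mk (FreeGroup.of y)⟩ := by
  simp [lab]

theorem lab_right (c : X → Q → Γ) (v : FreeGroup X) : (lab mk ρ c v).right = mk v := by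
  have : SemidirectProduct.rightHom.comp (lab mk ρ c) = mk := by
    ext y
    simp [lab]
  exact DFunLike.congr_fun this v

/-- The label of a word, as a function on `Q`. -/
def lv (c : X → Q → Γ) (v : FreeGroup X) : Q → Γ := (lab mk ρ c v).left

theorem lv_of (c : X → Q → Γ) (y : X) : lv mk ρ c (FreeGroup.of y) = c y := by
  rw [lv, lab_of]

theorem lv_mul (c : X → Q → Γ) (u v : FreeGroup X) (b : Q) :
    lv mk ρ c (u * v) b = lv mk ρ c u b * lv mk ρ c v ((ρ (mk u))⁻¹ * b) := by
  unfold lv
  rw [map_mul, SemidirectProduct.mul_left, lab_right]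
  show (lab mk ρ c u).left b * (lab mk ρ c v).left ((mk u)⁻¹ • (show Cov ρ from b)) = _
  rw [Cov.smul_def, map_inv]

theorem lv_one (c : X → Q → Γ) (b : Q) : lv mk ρ c 1 b = 1 := by
  unfold lv
  rw [map_one]
  rfl

theorem lv_inv (c : X → Q → Γ) (u : FreeGroup X) (b : Q) :
    lv mk ρ c u⁻¹ b = (lv mk ρ c u (ρ (mk u) * b))⁻¹ := by
  have h := lv_mul mk ρ c u u⁻¹ (ρ (mk u) * b)
  rw [mul_inv_cancel, lv_one, inv_mul_cancel_left] at h
  exact eq_inv_of_mul_eq_one_right h.symm

theorem lab_congr (x : X) (c c' : X → Q → Γ) (h : ∀ y, y ≠ x → c y = c' y) (v : FreeGroup X)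
    (hv : v ∈ without x) : lab mk ρ c v = lab mk ρ c' v := by
  have : without x ≤ (lab mk ρ c).eqLocus (lab mk ρ c') := by
    refine (Subgroup.closure_le _).2 ?_
    rintro _ ⟨y, hy, rfl⟩
    show lab mk ρ c (FreeGroup.of y) = lab mk ρ c' (FreeGroup.of y)
    rw [lab_of, lab_of, h y hy]
  exact this hv

theorem lv_congr (x : X) (c c' : X → Q → Γ) (h : ∀ y, y ≠ x → c y = c' y) (v : FreeGroup X)
    (hv : v ∈ without x) : lv mk ρ c v = lv mk ρ c' v := by
  unfold lv
  rw [lab_congr mk ρ x c c' h v hv]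

theorem lv_lt (x : X) (c : X → Q → Γ) (b : Bool) (q : Q) :
    lv mk ρ c (lt x b) q⁻¹ =
      sg b (c x (q * ρ (mk (if b then 1 else (FreeGroup.of x)⁻¹)))⁻¹) := by
  cases b
  · simp only [lt, sg, Bool.false_eq_true, if_false]
    rw [lv_inv, lv_of]
    simp
  · simp only [lt, sg, if_true]
    rw [lv_of]
    simp

theorem lv_pre (x : X) (e : ℕ → Bool) (w : ℕ → FreeGroup X) (c : X → Q → Γ) (n : ℕ)
    (q : Q) :
    lv mk ρ c (pre x e w n) q⁻¹ =
      wprod e n (fun k => c x (q * ρ (mk (pos x e w k)))⁻¹)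
        (fun k => lv mk ρ c (w k) (q * ρ (mk (pre x e w k * lt x (e k))))⁻¹) := by
  induction n with
  | zero => rw [pre_zero, lv_one, wprod_zero]
  | succ n ih =>
    rw [pre_succ, lv_mul, ih, wprod_succ, blk]
    have h1 : (ρ (mk (pre x e w n)))⁻¹ * q⁻¹ = (q * ρ (mk (pre x e w n)))⁻¹ := by group
    rw [h1, lv_mul, lv_lt]
    have h2 : (ρ (mk (lt x (e n))))⁻¹ * (q * ρ (mk (pre x e w n)))⁻¹ =
        (q * ρ (mk (pre x e w n * lt x (e n))))⁻¹ := by
      rw [map_mul, map_mul]
      group
    have h3 : q * ρ (mk (pre x e w n)) *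
        ρ (mk (if e n = true then 1 else (FreeGroup.of x)⁻¹)) = q * ρ (mk (pos x e w n)) := by
      rw [pos, map_mul, map_mul, mul_assoc]
    rw [h2, h3]

end

set_option backward.isDefEq.respectTransparency.types false in
/-- The free groupoid structure on the covering groupoid. -/
theorem exists_isFreeGroupoid {Q : Type} [Group Q] (x : X) (e : ℕ → Bool)
    (w : ℕ → FreeGroup X) (L : ℕ) (hw : ∀ k < L, w k ∈ without x)
    (r : FreeGroup X) (hr : pre x e w L = r)
    (ρ : PresentedGroup {r} →* Q)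
    (p : Fin L → Q) (hpdef : ∀ k, p k = ρ (PresentedGroup.mk _ (pos x e w k)))
    (hp : Function.Injective p) (σ : Q → Fin L) (hwf : WellFounded (ElimRel p σ)) :
    Nonempty (IsFreeGroupoid (ActionCategory (PresentedGroup {r}) (Cov ρ))) := by
  classical
  refine ⟨{
      quiverGenerators :=
        ⟨fun a b => { y : X // (PresentedGroup.of y : PresentedGroup {r}) • a.back = b.back ∧
          (y = x → ¬ Elim p σ ((show Q from b.back)⁻¹ : Q)) }⟩
      of := fun (y : Subtype _) => ⟨PresentedGroup.of y.1, y.2.1⟩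
      unique_lift := ?_ }⟩
  intro Γ _ f
  let mk : FreeGroup X →* PresentedGroup {r} := PresentedGroup.mk {r}
  -- labels of the edges different from `x`
  let c₀ : X → Q → Γ := fun y b =>
    if h : y = x then 1 else
      @f ⟨(), (PresentedGroup.of y : PresentedGroup {r})⁻¹ • (show Cov ρ from b)⟩
        ⟨(), (show Cov ρ from b)⟩
        ⟨y, smul_inv_smul _ _, fun h' => absurd h' h⟩
  let ψ : ∀ b : Q, ¬ Elim p σ b⁻¹ → Γ := fun b hb =>
    @f ⟨(), (PresentedGroup.of x : PresentedGroup {r})⁻¹ • (show Cov ρ from b)⟩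
      ⟨(), (show Cov ρ from b)⟩ ⟨x, smul_inv_smul _ _, fun _ => hb⟩
  have hψ : ∀ b b' : Q, b = b' → ∀ h h', ψ b h = ψ b' h' := by
    rintro b _ rfl h h'
    rfl
  let g : Q → Γ := fun q =>
    if h : ¬ Elim p σ q then ψ q⁻¹ (by rwa [inv_inv]) else 1
  have hg : ∀ (b : Q) (h : ¬ Elim p σ b⁻¹), g b⁻¹ = ψ b h := by
    intro b h
    show (if h : ¬ Elim p σ b⁻¹ then ψ b⁻¹⁻¹ (by rwa [inv_inv]) else 1) = ψ b h
    rw [dif_pos h]
    exact hψ _ _ (inv_inv b) (by rwa [inv_inv]) h
  let ω : Q → ℕ → Γ := fun q k =>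
    lv mk ρ c₀ (w k) (q * ρ (mk (pre x e w k * lt x (e k))))⁻¹
  let ext : (Fin L → Γ) → ℕ → Γ := fun D k => if h : k < L then D ⟨k, h⟩ else 1
  let E : Q → (Fin L → Γ) → Prop := fun q D => wprod e L (ext D) (ω q) = 1
  have hE : ∀ q D k, ∃! γ, E q (Function.update D k γ) := by
    intro q D k
    obtain ⟨γ, h1, h2⟩ := wprod_solve e L (ext D) (ω q) k k.2 1
    have h3 : ∀ γ, wprod e L (ext (Function.update D k γ)) (ω q) =
        wprod e L (Function.update (ext D) (k : ℕ) γ) (ω q) := by
      intro γ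
      refine wprod_congr e L _ _ _ _ (fun j hj => ?_) (fun _ _ => rfl)
      simp only [ext]
      rw [dif_pos hj]
      by_cases hjk : j = k
      · subst hjk
        simp
      · rw [Function.update_of_ne hjk, dif_pos hj, Function.update_of_ne]
        intro h
        apply hjk
        rw [← h]
    refine ⟨γ, ?_, fun γ' hγ' => h2 γ' ?_⟩
    · show wprod e L (ext (Function.update D k γ)) (ω q) = 1
      rw [h3]
      exact h1
    · have : wprod e L (ext (Function.update D k γ')) (ω q) = 1 := hγ'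
      rw [h3] at this
      exact this
  obtain ⟨C, ⟨hC1, hC2⟩, hC3⟩ := exists_unique_solution p hp σ hwf E hE g
  -- relation between labels and equations
  have hrel : ∀ c : X → Q → Γ, (∀ y, y ≠ x → c y = c₀ y) → ∀ q : Q,
      lv mk ρ c r q⁻¹ = wprod e L (ext fun k => c x (q * p k)⁻¹) (ω q) := by
    intro c hc q
    have h0 : lv mk ρ c r q⁻¹ = lv mk ρ c (pre x e w L) q⁻¹ := by rw [hr]
    rw [h0, lv_pre]
    refine wprod_congr e L _ _ _ _ (fun k hk => ?_) (fun k hk => ?_)
    · simp only [ext]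
      rw [dif_pos hk, hpdef]
    · simp only [ω]
      rw [lv_congr mk ρ x c c₀ hc (w k) (hw k hk)]
  -- the labels
  let c : X → Q → Γ := fun y b => if y = x then C (b⁻¹) else c₀ y b
  have hcx : ∀ b, c x b = C (b⁻¹) := fun b => by simp [c]
  have hcy : ∀ y, y ≠ x → c y = c₀ y := fun y hy => by
    funext b
    simp [c, hy]
  have hmkr : mk r = 1 := PresentedGroup.one_of_mem rfl
  have hlv : ∀ b : Q, lv mk ρ c r b = 1 := by
    intro b
    have h1 := hrel c hcy b⁻¹
    rw [inv_inv] at h1
    rw [h1]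
    have h3 : (fun k => c x (b⁻¹ * p k)⁻¹) = fun k => C (b⁻¹ * p k) := by
      funext k
      rw [hcx, inv_inv]
    rw [h3]
    exact hC2 b⁻¹
  have hlab : ∀ r' ∈ ({r} : Set (FreeGroup X)), FreeGroup.lift
      (fun y => (⟨c y, mk (FreeGroup.of y)⟩ : (Cov ρ → Γ) ⋊[mulAutArrow] PresentedGroup {r}))
      r' = 1 := by
    intro r' hr'
    obtain rfl : r' = r := hr'
    show lab mk ρ c r' = 1
    apply SemidirectProduct.ext
    · funext b
      exact hlv b
    · rw [lab_right]
      exact hmkr
  let F' : PresentedGroup {r} →* (Cov ρ → Γ) ⋊[mulAutArrow] PresentedGroup {r} :=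
    PresentedGroup.toGroup hlab
  have hF'of : ∀ y, F' (PresentedGroup.of y) = ⟨c y, mk (FreeGroup.of y)⟩ := fun y =>
    PresentedGroup.toGroup.of hlab
  refine ⟨uncurry F' ?_, ?_, ?_⟩
  · suffices SemidirectProduct.rightHom.comp F' = MonoidHom.id _ by
      exact DFunLike.ext_iff.mp this
    apply PresentedGroup.ext
    intro y
    rw [MonoidHom.comp_apply, hF'of]
    rfl
  · rintro ⟨⟨⟩, a : Cov ρ⟩ ⟨⟨⟩, b : Cov ρ⟩ ⟨y, h1, h2⟩
    have h1' : (PresentedGroup.of y : PresentedGroup {r}) • a = b := h1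
    have ha : (PresentedGroup.of y : PresentedGroup {r})⁻¹ • b = a :=
      inv_smul_eq_iff.mpr h1'.symm
    subst ha
    show (F' (PresentedGroup.of y)).left _ = _
    rw [hF'of]
    show c y b = _
    by_cases hy : y = x
    · subst hy
      have h3 : ¬ Elim p σ (b⁻¹ : Q) := h2 rfl
      show c y b = _
      rw [hcx, hC1 _ h3]
      exact hg b h3
    · rw [hcy y hy]
      simp only [c₀]
      rw [dif_neg hy]
  · intro E' hE'
    have : curry E' = F' := by
      apply PresentedGroup.ext
      intro y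
      rw [hF'of]
      -- the labels of `E'`
      let c' : X → Q → Γ := fun y b => ((curry E') (PresentedGroup.of y)).left b
      have hc'lab : ∀ v, lab mk ρ c' v = curry E' (mk v) := by
        intro v
        have : lab mk ρ c' = (curry E').comp mk := by
          apply FreeGroup.ext_hom
          intro z
          rw [lab_of]
          rfl
        rw [this]
        rfl
      have hc'y : ∀ z, z ≠ x → c' z = c₀ z := by
        intro z hz
        funext b
        simp only [c₀]
        rw [dif_neg hz]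
        exact hE' _ _ ⟨z, smul_inv_smul _ _, fun h' => absurd h' hz⟩
      have hc'C : (fun q => c' x q⁻¹) = C := by
        apply hC3
        refine ⟨fun q hq => ?_, fun q => ?_⟩
        · simp only [g]
          rw [dif_pos hq]
          exact hE' _ _ ⟨x, smul_inv_smul _ _, fun _ => by
            show ¬ Elim p σ ((q⁻¹)⁻¹ : Q)
            rwa [inv_inv]⟩
        · have h1 := hrel c' hc'y q
          have h2 : lv mk ρ c' r q⁻¹ = 1 := by
            unfold lv
            rw [hc'lab, hmkr, map_one]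
            rfl
          rw [h2] at h1
          exact h1.symm
      apply SemidirectProduct.ext
      · show c' y = c y
        by_cases hy : y = x
        · subst hy
          funext b
          rw [hcx, ← hc'C]
          show c' y b = c' y b⁻¹⁻¹
          rw [inv_inv]
        · rw [hc'y y hy, hcy y hy]
      · rfl
    apply Functor.hext
    · intro
      apply Unit.ext
    · refine ActionCategory.cases ?_
      intros
      simp only [← this, uncurry_map, curry_apply_left, coe_back, homOfPair.val]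
      rfl

set_option backward.isDefEq.respectTransparency false in
/-- The kernel is free. -/
theorem isFreeGroup_ker {Q : Type} [Group Q] (hQ : Lay Q) (x : X) (e : ℕ → Bool)
    (w : ℕ → FreeGroup X) (L : ℕ) (hL : 0 < L) (hw : ∀ k < L, w k ∈ without x)
    (r : FreeGroup X) (hr : pre x e w L = r)
    (ρ : PresentedGroup {r} →* Q) (hρ : Function.Surjective ρ)
    (hinj : ∀ i < L, ∀ j < L, ρ (PresentedGroup.mk _ (pos x e w i)) =
      ρ (PresentedGroup.mk _ (pos x e w j)) → i = j) : IsFreeGroup ρ.ker := by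
  classical
  let p : Fin L → Q := fun k => ρ (PresentedGroup.mk _ (pos x e w k))
  have hp : Function.Injective p := fun i j h => Fin.ext (hinj i i.2 j j.2 h)
  have : Nonempty (Fin L) := ⟨⟨0, hL⟩⟩
  obtain ⟨s, hs, hwf⟩ := hQ (Finset.univ.image p) (Finset.univ_nonempty.image p)
  have h1 : ∀ q, ∃ k : Fin L, p k = s q := fun q => by
    obtain ⟨k, -, hk⟩ := Finset.mem_image.1 (hs q)
    exact ⟨k, hk⟩
  choose σ hσ using h1
  have hwf' : WellFounded (ElimRel p σ) := by
    refine Subrelation.wf ?_ hwf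
    rintro q q' ⟨hne, k, hk⟩
    refine ⟨hne, p k, Finset.mem_image_of_mem p (Finset.mem_univ k), ?_⟩
    rw [← hσ, hk]
  obtain ⟨inst⟩ := exists_isFreeGroupoid x e w L hw r hr ρ p (fun _ => rfl) hp σ hwf'
  have : MulAction.IsPretransitive (PresentedGroup {r}) (Cov ρ) := by
    refine ⟨fun a b => ?_⟩
    obtain ⟨g, hg⟩ := hρ ((show Q from b) * (show Q from a)⁻¹)
    refine ⟨g, ?_⟩
    show (ρ g * (show Q from a) : Q) = b
    rw [hg]
    exact inv_mul_cancel_right (show Q from b) (show Q from a)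
  have : Nonempty (Cov ρ) := ⟨(1 : Q)⟩
  have hfree := IsFreeGroupoid.endIsFreeOfConnectedFree
    (objEquiv (PresentedGroup {r}) (Cov ρ) (1 : Q))
  have hst : MulAction.stabilizer (PresentedGroup {r}) (show Cov ρ from (1 : Q)) = ρ.ker := by
    ext g
    rw [MulAction.mem_stabilizer_iff, MonoidHom.mem_ker]
    show (ρ g * (1 : Q) : Q) = 1 ↔ _
    rw [mul_one]
  exact IsFreeGroup.ofMulEquiv (MulEquiv.trans
    (stabilizerIsoEnd (PresentedGroup {r}) (show Cov ρ from (1 : Q))).symm
    (MulEquiv.subgroupCongr hst))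

end Pool.Agent.H40C
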