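import Mathlib
import Pool.Agent.Lib.MP_98022b_h40.FreeKer

/-!
# Fox calculus and the tower of quotients
-/

set_option autoImplicit false

namespace Pool.Agent.H40C

/-- Groups obtained from the trivial group by finitely many extensions with torsion-free abelian
kernels, and their subgroups: poly-(torsion-free abelian) groups. -/
inductive PTFA : (G : Type) → [Group G] → Prop
  | triv {G : Type} [Group G] (h : ∀ g : G, g = 1) : PTFA G
  | ext {G Q : Type} [Group G] [Group Q] (f : G →* Q)
      (hc : ∀ a b : G, f a = 1 → f b = 1 → a * b = b * a)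
      (ht : ∀ (a : G) (n : ℕ), f a = 1 → 0 < n → a ^ n = 1 → a = 1)
      (h : PTFA Q) : PTFA G

theorem PTFA.lay {G : Type} [Group G] (h : PTFA G) : Lay G := by
  induction h with
  | triv h =>
    rename_i G _
    have : Subsingleton G := ⟨fun a b => by rw [h a, h b]⟩
    exact Lay.of_subsingleton G
  | ext f hc ht _ ih =>
    refine Lay.of_ext f ih (Lay.of_torsionFree _ ?_ ?_)
    · rintro ⟨a, ha⟩ ⟨b, hb⟩
      exact Subtype.ext (hc a b ha hb)
    · rintro ⟨a, ha⟩ n hn h
      exact Subtype.ext (ht a n ha hn (congrArg Subtype.val h))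

/-- The affine group `V ⋊ Q` of a module over the rational group algebra. -/
@[ext] structure Aff (Q V : Type) where
  v : V
  q : Q

section Aff

variable {Q V V' : Type} [Group Q] [AddCommGroup V] [Module (MonoidAlgebra ℚ Q) V]
  [AddCommGroup V'] [Module (MonoidAlgebra ℚ Q) V']

/-- The group algebra element of `q`. -/
noncomputable abbrev dl (q : Q) : MonoidAlgebra ℚ Q := MonoidAlgebra.of ℚ Q q

noncomputable instance : Group (Aff Q V) where
  mul a b := ⟨a.v + dl a.q • b.v, a.q * b.q⟩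
  one := ⟨0, 1⟩
  inv a := ⟨-(dl a.q⁻¹ • a.v), a.q⁻¹⟩
  mul_assoc a b c := by
    apply Aff.ext
    · show a.v + dl a.q • b.v + dl (a.q * b.q) • c.v = a.v + dl a.q • (b.v + dl b.q • c.v)
      rw [smul_add, ← add_assoc, dl, dl, dl, map_mul, mul_smul]
    · exact mul_assoc _ _ _
  one_mul a := by
    apply Aff.ext
    · show 0 + dl 1 • a.v = a.v
      rw [dl, map_one, one_smul, zero_add]
    · exact one_mul _
  mul_one a := by
    apply Aff.ext
    · show a.v + dl a.q • (0 : V) = a.v
      rw [smul_zero, add_zero]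
    · exact mul_one _
  inv_mul_cancel a := by
    apply Aff.ext
    · show -(dl a.q⁻¹ • a.v) + dl a.q⁻¹ • a.v = 0
      exact neg_add_cancel _
    · exact inv_mul_cancel _

theorem Aff.mul_v (a b : Aff Q V) : (a * b).v = a.v + dl a.q • b.v := rfl
theorem Aff.mul_q (a b : Aff Q V) : (a * b).q = a.q * b.q := rfl
theorem Aff.one_v : (1 : Aff Q V).v = 0 := rfl
theorem Aff.one_q : (1 : Aff Q V).q = 1 := rfl
theorem Aff.inv_v (a : Aff Q V) : (a⁻¹).v = -(dl a.q⁻¹ • a.v) := rfl
theorem Aff.inv_q (a : Aff Q V) : (a⁻¹).q = a.q⁻¹ := rfl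

/-- The projection. -/
noncomputable def Aff.proj : Aff Q V →* Q where
  toFun := Aff.q
  map_one' := rfl
  map_mul' _ _ := rfl

/-- Functoriality. -/
noncomputable def Aff.map (f : V →ₗ[MonoidAlgebra ℚ Q] V') : Aff Q V →* Aff Q V' where
  toFun a := ⟨f a.v, a.q⟩
  map_one' := by
    apply Aff.ext
    · show f 0 = 0
      exact map_zero f
    · rfl
  map_mul' a b := by
    apply Aff.ext
    · show f (a.v + dl a.q • b.v) = f a.v + dl a.q • f b.v
      rw [map_add, map_smul]
    · rfl

theorem Aff.ptfa (h : PTFA Q) : PTFA (Aff Q V) := by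
  refine PTFA.ext (Aff.proj) ?_ ?_ h
  · intro a b ha hb
    have ha' : a.q = 1 := ha
    have hb' : b.q = 1 := hb
    apply Aff.ext
    · rw [Aff.mul_v, Aff.mul_v, ha', hb', dl, map_one, one_smul, one_smul, add_comm]
    · rw [Aff.mul_q, Aff.mul_q, ha', hb']
  · intro a n ha hn h
    have ha' : a.q = 1 := ha
    have h1 : ∀ k : ℕ, (a ^ k).v = k • a.v ∧ (a ^ k).q = 1 := by
      intro k
      induction k with
      | zero => exact ⟨by rw [pow_zero, zero_smul]; rfl, rfl⟩
      | succ k ih =>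
        rw [pow_succ]
        refine ⟨?_, ?_⟩
        · rw [Aff.mul_v, ih.1, ih.2, dl, map_one, one_smul, succ_nsmul]
        · rw [Aff.mul_q, ih.2, ha', one_mul]
    have h2 : n • a.v = 0 := by rw [← (h1 n).1, h]; rfl
    apply Aff.ext
    · show a.v = 0
      have h3 : (algebraMap ℚ (MonoidAlgebra ℚ Q) (n : ℚ)⁻¹) • (n • a.v) = a.v := by
        rw [← Nat.cast_smul_eq_nsmul (MonoidAlgebra ℚ Q), smul_smul,
          ← map_natCast (algebraMap ℚ (MonoidAlgebra ℚ Q)) n, ← map_mul,
          inv_mul_cancel₀ (by exact_mod_cast hn.ne'), map_one, one_smul]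
      rw [← h3, h2, smul_zero]
    · exact ha'

end Aff

section fox

variable {X Q : Type} [Group Q] (ρ : FreeGroup X →* Q)

/-- The Fox derivative together with the homomorphism. -/
noncomputable def fox : FreeGroup X →* Aff Q (X →₀ MonoidAlgebra ℚ Q) :=
  FreeGroup.lift fun y => ⟨Finsupp.single y 1, ρ (FreeGroup.of y)⟩

/-- The Fox derivative. -/
noncomputable def D (u : FreeGroup X) : X →₀ MonoidAlgebra ℚ Q := (fox ρ u).v

theorem fox_q (u : FreeGroup X) : (fox ρ u).q = ρ u := by
  have : Aff.proj.comp (fox ρ) = ρ := by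
    apply FreeGroup.ext_hom
    intro y
    simp [fox, Aff.proj]
  exact DFunLike.congr_fun this u

theorem D_mul (u v : FreeGroup X) : D ρ (u * v) = D ρ u + dl (ρ u) • D ρ v := by
  unfold D
  rw [map_mul, Aff.mul_v, fox_q]

@[simp] theorem D_one : D ρ 1 = 0 := by
  unfold D
  rw [map_one]
  rfl

theorem D_of (y : X) : D ρ (FreeGroup.of y) = Finsupp.single y 1 := by
  simp [D, fox]

theorem D_inv (u : FreeGroup X) : D ρ u⁻¹ = -(dl (ρ u)⁻¹ • D ρ u) := by
  unfold D
  rw [map_inv, Aff.inv_v, fox_q]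

theorem fox_ext_iff (u v : FreeGroup X) : fox ρ u = fox ρ v ↔ ρ u = ρ v ∧ D ρ u = D ρ v := by
  constructor
  · intro h
    refine ⟨?_, ?_⟩
    · rw [← fox_q ρ u, ← fox_q ρ v, h]
    · unfold D
      rw [h]
  · rintro ⟨h1, h2⟩
    apply Aff.ext
    · exact h2
    · rw [fox_q, fox_q, h1]

/-- The relation module of the one-relator group over `Q`. -/
abbrev RelMod (r : FreeGroup X) : Type :=
  (X →₀ MonoidAlgebra ℚ Q) ⧸ (Submodule.span (MonoidAlgebra ℚ Q) {D ρ r})

/-- The next homomorphism of the tower. -/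
noncomputable def nextHom (r : FreeGroup X) : FreeGroup X →* Aff Q (RelMod ρ r) :=
  (Aff.map (Submodule.mkQ (Submodule.span (MonoidAlgebra ℚ Q) {D ρ r}))).comp (fox ρ)

theorem nextHom_v (r u : FreeGroup X) :
    (nextHom ρ r u).v = Submodule.Quotient.mk (D ρ u) := rfl

theorem nextHom_q (r u : FreeGroup X) : (nextHom ρ r u).q = ρ u := fox_q ρ u

theorem nextHom_self (r : FreeGroup X) (hr : ρ r = 1) : nextHom ρ r r = 1 := by
  apply Aff.ext
  · rw [nextHom_v]
    show Submodule.Quotient.mk (D ρ r) = 0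
    rw [Submodule.Quotient.mk_eq_zero]
    exact Submodule.subset_span rfl
  · rw [nextHom_q, hr]
    rfl

theorem nextHom_eq_iff (r u v : FreeGroup X) : nextHom ρ r u = nextHom ρ r v ↔
    ρ u = ρ v ∧ ∃ c : MonoidAlgebra ℚ Q, D ρ u - D ρ v = c • D ρ r := by
  constructor
  · intro h
    refine ⟨?_, ?_⟩
    · rw [← nextHom_q ρ r, ← nextHom_q ρ r, h]
    · have h1 : (Submodule.Quotient.mk (D ρ u) : RelMod ρ r) = Submodule.Quotient.mk (D ρ v) := by
        rw [← nextHom_v, ← nextHom_v, h]
      rw [Submodule.Quotient.eq, Submodule.mem_span_singleton] at h1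
      obtain ⟨c, hc⟩ := h1
      exact ⟨c, hc.symm⟩
  · rintro ⟨h1, c, hc⟩
    apply Aff.ext
    · rw [nextHom_v, nextHom_v, Submodule.Quotient.eq, Submodule.mem_span_singleton]
      exact ⟨c, hc.symm⟩
    · rw [nextHom_q, nextHom_q, h1]

/-- A stage of the tower. -/
structure Stage (X : Type) (r : FreeGroup X) where
  Q : Type
  [grp : Group Q]
  ρ : FreeGroup X →* Q
  hr : ρ r = 1
  ptfa : PTFA Q

attribute [instance] Stage.grp

/-- The next stage. -/
noncomputable def Stage.next {X : Type} {r : FreeGroup X} (s : Stage X r) : Stage X r where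
  Q := Aff s.Q (RelMod s.ρ r)
  ρ := nextHom s.ρ r
  hr := nextHom_self s.ρ r s.hr
  ptfa := Aff.ptfa s.ptfa

/-- The tower over a given stage. -/
noncomputable def tower {X : Type} {r : FreeGroup X} (s : Stage X r) : ℕ → Stage X r
  | 0 => s
  | n + 1 => (tower s n).next

end fox

end Pool.Agent.H40C
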