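import Mathlib
import Pool.Agent.Lib.MP_98022b_h40.Fox

/-!
# Analysis of one stage of the tower
-/

set_option autoImplicit false

namespace Pool.Agent.H40C

section alg

variable {Q : Type} [Group Q]

theorem scalar_of_support (hQ : Lay Q) (f lam : MonoidAlgebra ℚ Q)
    (hf : f.coeff.support.Nonempty)
    (h : ∀ q, (lam * f).coeff q ≠ 0 → f.coeff q ≠ 0) :
    ∃ c : ℚ, lam = MonoidAlgebra.single 1 c := by
  classical
  by_cases hall : ∀ a ∈ lam.coeff.support, a = 1
  · refine ⟨lam.coeff 1, ?_⟩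
    apply MonoidAlgebra.coeff_injective
    ext q
    rw [MonoidAlgebra.coeff_single, Finsupp.single_apply]
    split_ifs with hq
    · rw [hq]
    · by_contra hne
      exact hq (hall q (Finsupp.mem_support_iff.2 hne)).symm
  · exfalso
    push Not at hall
    obtain ⟨a₀, ha₀, ha₀'⟩ := hall
    obtain ⟨a, ha, ha1, s, hs, huniq⟩ := hQ.exists_unique_prod
      (insert 1 lam.coeff.support) f.coeff.support hf (Finset.mem_insert_of_mem ha₀) ha₀'
    have ha' : a ∈ lam.coeff.support := by
      rcases Finset.mem_insert.1 ha with h1 | h1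
      · exact absurd h1 ha1
      · exact h1
    have hU : UniqueMul lam.coeff.support f.coeff.support a s := by
      intro a' b' ha'' hb' heq
      have h2 : a = a' := huniq a' (Finset.mem_insert_of_mem ha'') b' hb' heq.symm
      subst h2
      exact ⟨rfl, mul_left_cancel heq⟩
    have h3 : (lam * f).coeff (a * s) ≠ 0 := by
      rw [MonoidAlgebra.coeff_mul_mul_of_uniqueMul hU]
      exact mul_ne_zero (Finsupp.mem_support_iff.1 ha') (Finsupp.mem_support_iff.1 hs)
    have h4 := h _ h3
    exact ha1 (huniq 1 (Finset.mem_insert_self _ _) (a * s) (Finsupp.mem_support_iff.2 h4)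
      (by rw [one_mul]))

theorem eq_zero_of_mul_eq_zero (hQ : Lay Q) (f lam : MonoidAlgebra ℚ Q) (hf : f ≠ 0)
    (h : lam * f = 0) : lam = 0 := by
  have hf' : f.coeff.support.Nonempty := by
    rw [Finsupp.support_nonempty_iff]
    intro h0
    exact hf (MonoidAlgebra.coeff_eq_zero.1 h0)
  obtain ⟨c, rfl⟩ := scalar_of_support hQ f lam hf' (by
    intro q hq
    rw [h] at hq
    exact absurd rfl hq)
  obtain ⟨q, hq⟩ := hf'
  have h1 : (MonoidAlgebra.single 1 c * f).coeff q = c * f.coeff q := by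
    rw [MonoidAlgebra.coeff_single_mul_apply]
    simp
  rw [h] at h1
  have h2 : c = 0 := by
    have : c * f.coeff q = 0 := h1.symm
    rcases mul_eq_zero.1 this with h3 | h3
    · exact h3
    · exact absurd h3 (Finsupp.mem_support_iff.1 hq)
  rw [h2, MonoidAlgebra.single_zero]

end alg

section comp

variable {X Q : Type} [Group Q] (ρ : FreeGroup X →* Q) (x : X)

/-- The sign. -/
def sgn (b : Bool) : ℚ := if b then 1 else -1

theorem sgn_ne_zero (b : Bool) : sgn b ≠ 0 := by cases b <;> simp [sgn]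

theorem dl_eq (q : Q) : dl q = MonoidAlgebra.single q (1 : ℚ) := MonoidAlgebra.of_apply ..

theorem D_without (v : FreeGroup X) (hv : v ∈ without x) : (D ρ v) x = 0 := by
  classical
  unfold without at hv
  induction hv using Subgroup.closure_induction with
  | mem v hv =>
    obtain ⟨y, hy, rfl⟩ := hv
    rw [D_of, Finsupp.single_apply, if_neg]
    exact hy
  | one => rw [D_one]; rfl
  | mul u v _ _ hu hv =>
    rw [D_mul, Finsupp.add_apply, Finsupp.smul_apply, hu, hv, smul_zero, add_zero]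
  | inv u _ hu =>
    rw [D_inv, Finsupp.neg_apply, Finsupp.smul_apply, hu, smul_zero, neg_zero]

theorem D_lt (b : Bool) : (D ρ (lt x b)) x =
    MonoidAlgebra.single (ρ (if b then 1 else (FreeGroup.of x)⁻¹)) (sgn b) := by
  cases b
  · simp only [lt, sgn, Bool.false_eq_true, if_false]
    rw [D_inv, D_of, Finsupp.neg_apply, Finsupp.smul_apply, Finsupp.single_eq_same, map_inv]
    rw [smul_eq_mul, mul_one, dl_eq, MonoidAlgebra.single_neg]
  · simp only [lt, sgn, if_true]
    rw [D_of, Finsupp.single_eq_same, map_one]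
    rfl

theorem D_pre (e : ℕ → Bool) (w : ℕ → FreeGroup X) (hw : ∀ k, w k ∈ without x) (n : ℕ) :
    (D ρ (pre x e w n)) x =
      ∑ k ∈ Finset.range n, MonoidAlgebra.single (ρ (pos x e w k)) (sgn (e k)) := by
  induction n with
  | zero => simp
  | succ n ih =>
    rw [Finset.sum_range_succ, ← ih, pre_succ, D_mul, Finsupp.add_apply, Finsupp.smul_apply, blk,
      D_mul, Finsupp.add_apply, Finsupp.smul_apply, D_without ρ x _ (hw n), smul_zero, add_zero,
      D_lt, smul_eq_mul, dl_eq, MonoidAlgebra.single_mul_single, one_mul,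
      ← map_mul, pos]

theorem coeff_D_pre (e : ℕ → Bool) (w : ℕ → FreeGroup X) (hw : ∀ k, w k ∈ without x) (n : ℕ)
    (q : Q) [DecidableEq Q] : ((D ρ (pre x e w n)) x).coeff q =
      ∑ k ∈ Finset.range n, if ρ (pos x e w k) = q then sgn (e k) else 0 := by
  rw [D_pre ρ x e w hw]
  simp only [MonoidAlgebra.coeff_sum, MonoidAlgebra.coeff_single, Finsupp.coe_finsetSum,
    Finset.sum_apply, Finsupp.single_apply]

end comp

/-- Summary of the analysis of one stage. -/
theorem stage_analysis {X Q : Type} [Group Q] (hQ : Lay Q) (ρ : FreeGroup X →* Q) (x : X)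
    (e : ℕ → Bool) (w : ℕ → FreeGroup X) (L : ℕ) (hL : 0 < L)
    (hw : ∀ k, w k ∈ without x)
    (hper : ∀ k, ρ (pos x e w (k + L)) = ρ (pos x e w k))
    (coh : ∀ i j, ρ (pos x e w i) = ρ (pos x e w j) → e i = e j)
    (stab : ∀ i j, ρ (pos x e w i) = ρ (pos x e w j) →
      ∃ c : MonoidAlgebra ℚ Q, D ρ (pre x e w j) - D ρ (pre x e w i) = c • D ρ (pre x e w L)) :
    ∃ l, 0 < l ∧ l ≤ L ∧ (∀ d, 0 < d → d < l → ∀ i, ρ (pos x e w (i + d)) ≠ ρ (pos x e w i)) ∧
      (∀ k, ρ (pos x e w (k + l)) = ρ (pos x e w k)) ∧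
      (∀ k, fox ρ (w (k + l)) = fox ρ (w k)) := by
  classical
  let a : ℕ → Q := fun k => ρ (pos x e w k)
  -- the minimal return
  have hex : ∃ d, 0 < d ∧ ∃ i, a (i + d) = a i := ⟨L, hL, 0, by
    show ρ (pos x e w (0 + L)) = ρ (pos x e w 0)
    exact hper 0⟩
  let l := Nat.find hex
  obtain ⟨hl0, i₀, hi₀⟩ : 0 < l ∧ ∃ i, a (i + l) = a i := Nat.find_spec hex
  have hlmin : ∀ d, 0 < d → d < l → ∀ i, a (i + d) ≠ a i := by
    intro d hd hdl i h
    exact Nat.find_min hex hdl ⟨hd, i, h⟩
  have hlL : l ≤ L := Nat.find_min' hex ⟨hL, 0, hper 0⟩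
  have hinj : ∀ i j, i ≤ j → j < i + l → a i = a j → i = j := by
    intro i j hij hj h
    by_contra hne
    have h1 : j = i + (j - i) := by omega
    rw [h1] at h
    exact hlmin (j - i) (by omega) (by omega) i h.symm
  -- signed and unsigned counts
  let f : MonoidAlgebra ℚ Q := (D ρ (pre x e w L)) x
  let cnt : ℕ → ℕ → Q → ℚ := fun i j q => ∑ k ∈ Finset.Ico i j, if a k = q then (1 : ℚ) else 0
  have hsig : ∀ i j k₀, (∑ k ∈ Finset.Ico i j, if a k = a k₀ then sgn (e k) else 0) =
      sgn (e k₀) * cnt i j (a k₀) := by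
    intro i j k₀
    rw [Finset.mul_sum]
    refine Finset.sum_congr rfl fun k _ => ?_
    split_ifs with h
    · rw [coh k k₀ h, mul_one]
    · rw [mul_zero]
  have haper : ∀ k m, a (k + m * L) = a k := by
    intro k m
    induction m with
    | zero => simp
    | succ m ih =>
      have : k + (m + 1) * L = (k + m * L) + L := by ring
      rw [this]
      exact (hper _).trans ih
  have hamod : ∀ k, a (k % L) = a k := by
    intro k
    have := haper (k % L) (k / L)
    rw [← this]
    congr 1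
    rw [mul_comm]
    exact Nat.mod_add_div k L
  have hcntL : ∀ k₀, 0 < cnt 0 L (a k₀) := by
    intro k₀
    refine Finset.sum_pos' (fun k _ => by positivity) ⟨k₀ % L, ?_, ?_⟩
    · exact Finset.mem_Ico.2 ⟨Nat.zero_le _, Nat.mod_lt _ hL⟩
    · rw [if_pos (hamod k₀)]
      exact one_pos
  have hfcoef : ∀ q, f.coeff q = ∑ k ∈ Finset.Ico 0 L, if a k = q then sgn (e k) else 0 := by
    intro q
    rw [← Finset.range_eq_Ico]
    exact coeff_D_pre ρ x e w hw L q
  have hf_a : ∀ k₀, f.coeff (a k₀) ≠ 0 := by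
    intro k₀
    rw [hfcoef, hsig]
    exact mul_ne_zero (sgn_ne_zero _) (hcntL k₀).ne'
  have hf_supp : f.coeff.support.Nonempty := ⟨a 0, Finsupp.mem_support_iff.2 (hf_a 0)⟩
  have hdiff : ∀ i j, i ≤ j → ∀ q, ((D ρ (pre x e w j)) x - (D ρ (pre x e w i)) x).coeff q =
      ∑ k ∈ Finset.Ico i j, if a k = q then sgn (e k) else 0 := by
    intro i j hij q
    rw [MonoidAlgebra.coeff_sub, Finsupp.sub_apply, coeff_D_pre ρ x e w hw,
      coeff_D_pre ρ x e w hw, Finset.sum_Ico_eq_sub _ hij]
  have key : ∀ i j, i ≤ j → a i = a j → ∃ c : ℚ,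
      D ρ (pre x e w j) - D ρ (pre x e w i) =
        (MonoidAlgebra.single 1 c : MonoidAlgebra ℚ Q) • D ρ (pre x e w L) ∧
      ∀ k₀, cnt i j (a k₀) = c * cnt 0 L (a k₀) := by
    intro i j hij haij
    obtain ⟨lam, hlam⟩ := stab i j haij
    have h1 : (D ρ (pre x e w j)) x - (D ρ (pre x e w i)) x = lam * f := by
      have := DFunLike.congr_fun hlam x
      rwa [Finsupp.sub_apply, Finsupp.smul_apply, smul_eq_mul] at this
    obtain ⟨c, rfl⟩ := scalar_of_support hQ f lam hf_supp (by
      intro q hq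
      rw [← h1, hdiff i j hij] at hq
      obtain ⟨k, -, hk⟩ := Finset.exists_ne_zero_of_sum_ne_zero hq
      have hk' : a k = q := by
        by_contra h
        rw [if_neg h] at hk
        exact hk rfl
      rw [← hk']
      exact hf_a k)
    refine ⟨c, hlam, fun k₀ => ?_⟩
    have h2 := hdiff i j hij (a k₀)
    rw [h1, hsig, MonoidAlgebra.coeff_single_mul_apply, inv_one, one_mul, hfcoef, hsig] at h2
    have h3 := sgn_ne_zero (e k₀)
    have h4 : sgn (e k₀) * (c * cnt 0 L (a k₀)) = sgn (e k₀) * cnt i j (a k₀) := by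
      rw [← h2]; ring
    exact (mul_left_cancel₀ h3 h4).symm
  -- counts in windows
  have hwin_le : ∀ i q, cnt i (i + l) q ≤ 1 := by
    intro i q
    by_cases h : ∃ k ∈ Finset.Ico i (i + l), a k = q
    · obtain ⟨k, hk, hkq⟩ := h
      rw [Finset.mem_Ico] at hk
      have : cnt i (i + l) q = 1 := by
        show (∑ k ∈ Finset.Ico i (i + l), if a k = q then (1 : ℚ) else 0) = 1
        rw [Finset.sum_eq_single k]
        · rw [if_pos hkq]
        · intro k' hk' hne
          rw [Finset.mem_Ico] at hk'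
          rw [if_neg]
          intro h'
          apply hne
          rcases le_total k k' with h1 | h1
          · exact (hinj k k' h1 (by omega) (hkq.trans h'.symm)).symm
          · exact hinj k' k h1 (by omega) (h'.trans hkq.symm)
        · intro h'
          exact absurd (Finset.mem_Ico.2 hk) h'
      rw [this]
    · push Not at h
      have : cnt i (i + l) q = 0 := Finset.sum_eq_zero fun k hk => if_neg (h k hk)
      rw [this]
      exact zero_le_one
  have hwin_mem : ∀ i q, 0 < cnt i (i + l) q → ∃ k, i ≤ k ∧ k < i + l ∧ a k = q := by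
    intro i q h
    obtain ⟨k, hk, hk'⟩ := Finset.exists_ne_zero_of_sum_ne_zero h.ne'
    rw [Finset.mem_Ico] at hk
    refine ⟨k, hk.1, hk.2, ?_⟩
    by_contra hne
    rw [if_neg hne] at hk'
    exact hk' rfl
  have hwin_pos : ∀ i k, i ≤ k → k < i + l → 0 < cnt i (i + l) (a k) := by
    intro i k h1 h2
    refine Finset.sum_pos' (fun k _ => by positivity) ⟨k, Finset.mem_Ico.2 ⟨h1, h2⟩, ?_⟩
    rw [if_pos rfl]
    exact one_pos
  obtain ⟨c₀, -, hc₀⟩ := key i₀ (i₀ + l) (by omega) hi₀.symm
  have hc₀pos : 0 < c₀ := by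
    have h1 := hc₀ i₀
    have h2 := hwin_pos i₀ i₀ le_rfl (by omega)
    rw [h1] at h2
    by_contra hneg
    push Not at hneg
    exact absurd h2 (not_lt.2 (mul_nonpos_of_nonpos_of_nonneg hneg (hcntL i₀).le))
  have hge1 : ∀ i j q, 0 < cnt i j q → 1 ≤ cnt i j q := by
    intro i j q h
    have h1 : cnt i j q = (((Finset.Ico i j).filter (fun k => a k = q)).card : ℚ) := by
      show (∑ k ∈ Finset.Ico i j, if a k = q then (1 : ℚ) else 0) = _
      rw [Finset.sum_boole]
    rw [h1] at h ⊢
    have h2 : 0 < ((Finset.Ico i j).filter (fun k => a k = q)).card := by exact_mod_cast h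
    exact_mod_cast h2
  have hone : ∀ k₀, c₀ * cnt 0 L (a k₀) = 1 := by
    intro k₀
    rw [← hc₀]
    refine le_antisymm (hwin_le _ _) (hge1 _ _ _ ?_)
    rw [hc₀]
    exact mul_pos hc₀pos (hcntL k₀)
  -- every window covers all positions
  let S : Finset Q := (Finset.range L).image a
  have haS : ∀ k, a k ∈ S := fun k => Finset.mem_image.2 ⟨k % L, Finset.mem_range.2 (Nat.mod_lt _ hL),
    hamod k⟩
  have hcardW : ∀ i, ((Finset.Ico i (i + l)).image a).card = l := by
    intro i
    rw [Finset.card_image_of_injOn, Nat.card_Ico]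
    · omega
    · intro k hk k' hk' h
      rw [Finset.mem_coe, Finset.mem_Ico] at hk hk'
      rcases le_total k k' with h1 | h1
      · exact hinj k k' h1 (by omega) h
      · exact (hinj k' k h1 (by omega) h.symm).symm
  have hS : S = (Finset.Ico i₀ (i₀ + l)).image a := by
    apply Finset.Subset.antisymm
    · intro q hq
      obtain ⟨k, -, rfl⟩ := Finset.mem_image.1 hq
      obtain ⟨k', h1, h2, h3⟩ := hwin_mem i₀ (a k) (by
        rw [hc₀]
        exact mul_pos hc₀pos (hcntL k))
      exact Finset.mem_image.2 ⟨k', Finset.mem_Ico.2 ⟨h1, h2⟩, h3⟩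
    · intro q hq
      obtain ⟨k, -, rfl⟩ := Finset.mem_image.1 hq
      exact haS k
  have hcardS : S.card = l := by rw [hS, hcardW]
  have hW : ∀ i, (Finset.Ico i (i + l)).image a = S := by
    intro i
    apply Finset.eq_of_subset_of_card_le
    · intro q hq
      obtain ⟨k, -, rfl⟩ := Finset.mem_image.1 hq
      exact haS k
    · rw [hcardW, hcardS]
  have hperl : ∀ k, a (k + l) = a k := by
    intro k
    have h1 : a (k + l) ∈ (Finset.Ico k (k + l)).image a := by
      rw [hW]
      exact haS _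
    obtain ⟨k', hk', h2⟩ := Finset.mem_image.1 h1
    rw [Finset.mem_Ico] at hk'
    rcases Nat.eq_or_lt_of_le hk'.1 with h3 | h3
    · rw [← h2, h3]
    · exfalso
      refine hlmin (k + l - k') (by omega) (by omega) k' ?_
      have : k' + (k + l - k') = k + l := by omega
      rw [this, h2]
  -- the constants are equal
  have hconst : ∀ k, D ρ (pre x e w (k + l)) - D ρ (pre x e w k) =
      (MonoidAlgebra.single 1 c₀ : MonoidAlgebra ℚ Q) • D ρ (pre x e w L) := by
    intro k
    obtain ⟨c, h1, h2⟩ := key k (k + l) (by omega) (hperl k).symm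
    have h3 : c * cnt 0 L (a k) = 1 := by
      rw [← h2]
      exact le_antisymm (hwin_le _ _) (hge1 _ _ _ (hwin_pos k k le_rfl (by omega)))
    have h4 : c = c₀ := by
      have h5 := hone k
      have h6 := (hcntL k).ne'
      exact mul_right_cancel₀ h6 (h3.trans h5.symm)
    rw [h1, h4]
  have hek : ∀ k, e (k + l) = e k := fun k => coh _ _ (hperl k)
  have hpre : ∀ k, ρ (pre x e w (k + l)) = ρ (pre x e w k) := by
    intro k
    have h1 : ρ (pos x e w (k + l)) = ρ (pos x e w k) := hperl k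
    rw [pos, pos, map_mul, map_mul, hek] at h1
    exact mul_right_cancel h1
  refine ⟨l, hl0, hlL, hlmin, hperl, fun k => ?_⟩
  rw [fox_ext_iff]
  have h1 : ρ (w (k + l)) = ρ (w k) := by
    have h2 := hpre (k + 1)
    have h3 : k + 1 + l = k + l + 1 := by omega
    rw [h3, pre_succ, pre_succ, map_mul, map_mul, hpre k, blk, blk, map_mul, map_mul, hek] at h2
    exact mul_left_cancel (mul_left_cancel h2)
  refine ⟨h1, ?_⟩
  have h2 := hconst (k + 1)
  rw [← hconst k] at h2
  have h3 : k + 1 + l = k + l + 1 := by omega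
  rw [h3, pre_succ, pre_succ, D_mul, D_mul, hpre k, blk, blk, D_mul, D_mul, hek] at h2
  have h4 : dl (ρ (pre x e w k)) • (D ρ (lt x (e k)) + dl (ρ (lt x (e k))) • D ρ (w (k + l))) =
      dl (ρ (pre x e w k)) • (D ρ (lt x (e k)) + dl (ρ (lt x (e k))) • D ρ (w k)) := by
    have h5 := h2
    rw [sub_eq_iff_eq_add] at h5
    have h6 : D ρ (pre x e w (k + l)) +
        dl (ρ (pre x e w k)) • (D ρ (lt x (e k)) + dl (ρ (lt x (e k))) • D ρ (w (k + l))) =
        D ρ (pre x e w (k + l)) +
        dl (ρ (pre x e w k)) • (D ρ (lt x (e k)) + dl (ρ (lt x (e k))) • D ρ (w k)) := by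
      rw [h5]
      abel
    exact add_left_cancel h6
  have hcancel : ∀ (q : Q) (m m' : X →₀ MonoidAlgebra ℚ Q), dl q • m = dl q • m' → m = m' := by
    intro q m m' h
    have h7 : dl q⁻¹ • dl q • m = dl q⁻¹ • dl q • m' := by rw [h]
    rwa [smul_smul, smul_smul, dl_eq, dl_eq, MonoidAlgebra.single_mul_single, inv_mul_cancel,
      one_mul, ← MonoidAlgebra.one_def, one_smul, one_smul] at h7
  exact hcancel _ _ _ (add_left_cancel (hcancel _ _ _ h4))

end Pool.Agent.H40C
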