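import Mathlib
import Pool.Agent.Lib.MP_98022b_h40.Step

/-!
# The words without the letter `x` embed in the limit of the tower
-/

set_option autoImplicit false

namespace Pool.Agent.H40C

section

variable {X Q : Type} [Group Q] (ρ : FreeGroup X →* Q)

theorem D_mk_cons (a : X × Bool) (t : List (X × Bool)) :
    D ρ (FreeGroup.mk (a :: t)) =
      D ρ (FreeGroup.mk [a]) + dl (ρ (FreeGroup.mk [a])) • D ρ (FreeGroup.mk t) := by
  rw [← D_mul, FreeGroup.mul_mk]
  rfl

theorem D_mk_singleton_true (y : X) :
    D ρ (FreeGroup.mk [(y, true)]) = Finsupp.single y 1 := D_of ρ y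

theorem mk_singleton_false (y : X) :
    (FreeGroup.mk [(y, false)] : FreeGroup X) = (FreeGroup.of y)⁻¹ := rfl

theorem D_mk_singleton_false (y : X) :
    D ρ (FreeGroup.mk [(y, false)]) =
      -(dl (ρ (FreeGroup.of y))⁻¹ • Finsupp.single y (1 : MonoidAlgebra ℚ Q)) := by
  rw [mk_singleton_false, D_inv, D_of]

/-- A coefficient of the Fox derivative which vanishes. -/
theorem coeff_zero_of_prefix (y : X) (t : List (X × Bool)) (g : Q)
    (h1 : ∀ k, 0 < k → k ≤ t.length → g * ρ (FreeGroup.mk (t.take k)) ≠ 1)
    (h2 : g ≠ 1 ∨ t.head? ≠ some (y, true)) :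
    ((D ρ (FreeGroup.mk t)) y).coeff g⁻¹ = 0 := by
  classical
  induction t generalizing g with
  | nil =>
    have : (FreeGroup.mk [] : FreeGroup X) = 1 := rfl
    rw [this, D_one]
    rfl
  | cons a t ih =>
    have hg' : g * ρ (FreeGroup.mk [a]) ≠ 1 := by
      have := h1 1 one_pos (by simp)
      simpa using this
    rw [D_mk_cons, Finsupp.add_apply, Finsupp.smul_apply, MonoidAlgebra.coeff_add,
      Finsupp.add_apply, smul_eq_mul, dl_eq, MonoidAlgebra.coeff_single_mul_apply, one_mul]
    have h3 : (ρ (FreeGroup.mk [a]))⁻¹ * g⁻¹ = (g * ρ (FreeGroup.mk [a]))⁻¹ := by group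
    rw [h3, ih (g * ρ (FreeGroup.mk [a])) ?_ (Or.inl hg'), add_zero]
    · obtain ⟨y', b⟩ := a
      cases b
      · rw [D_mk_singleton_false, Finsupp.neg_apply, Finsupp.smul_apply, Finsupp.single_apply]
        split_ifs with hy
        · subst hy
          rw [smul_eq_mul, mul_one, dl_eq, MonoidAlgebra.coeff_neg, Finsupp.neg_apply,
            MonoidAlgebra.coeff_single, Finsupp.single_apply, if_neg, neg_zero]
          intro h4
          apply hg'
          rw [mk_singleton_false, map_inv, h4]
          group
        · rw [smul_zero, neg_zero]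
          rfl
      · rw [D_mk_singleton_true, Finsupp.single_apply]
        split_ifs with hy
        · subst hy
          rw [MonoidAlgebra.one_def, MonoidAlgebra.coeff_single, Finsupp.single_apply, if_neg]
          intro h4
          rcases h2 with h5 | h5
          · exact h5 (inv_eq_one.1 h4.symm)
          · exact h5 rfl
        · rfl
    · intro k hk hk'
      have := h1 (k + 1) (Nat.succ_pos k) (by simpa using hk')
      rw [List.take_succ_cons] at this
      have h4 : (FreeGroup.mk (a :: t.take k) : FreeGroup X) =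
          FreeGroup.mk [a] * FreeGroup.mk (t.take k) := by
        rw [FreeGroup.mul_mk]
        rfl
      rwa [h4, map_mul, ← mul_assoc] at this

/-- A word starting with an inverse letter has a non-zero Fox derivative. -/
theorem D_ne_zero (y : X) (t : List (X × Bool))
    (h1 : ∀ k, 0 < k → k ≤ t.length → ρ (FreeGroup.mk (t.take k)) ≠ 1)
    (h2 : t.head? ≠ some (y, true)) :
    D ρ (FreeGroup.mk ((y, false) :: t)) ≠ 0 := by
  classical
  intro h
  have h3 := coeff_zero_of_prefix ρ y t 1 (fun k hk hk' => by
    rw [one_mul]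
    exact h1 k hk hk') (Or.inr h2)
  have h4 : ((D ρ (FreeGroup.mk ((y, false) :: t))) y).coeff (ρ (FreeGroup.of y))⁻¹ = -1 := by
    rw [D_mk_cons, Finsupp.add_apply, Finsupp.smul_apply, MonoidAlgebra.coeff_add,
      Finsupp.add_apply, smul_eq_mul, dl_eq, MonoidAlgebra.coeff_single_mul_apply, one_mul]
    have h5 : (ρ (FreeGroup.mk [(y, false)]))⁻¹ * (ρ (FreeGroup.of y))⁻¹ = (1 : Q)⁻¹ := by
      rw [mk_singleton_false, map_inv]
      group
    rw [h5, h3, add_zero, D_mk_singleton_false, Finsupp.neg_apply, Finsupp.smul_apply,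
      Finsupp.single_eq_same, smul_eq_mul, mul_one, dl_eq, MonoidAlgebra.coeff_neg,
      Finsupp.neg_apply, MonoidAlgebra.coeff_single, Finsupp.single_eq_same]
  rw [h] at h4
  have h5 : (0 : ℚ) = -1 := h4
  norm_num at h5

end

/-- Words without the letter `x`, as lists. -/
theorem mk_mem_without {X : Type} (x : X) (t : List (X × Bool)) (ht : ∀ a ∈ t, a.1 ≠ x) :
    FreeGroup.mk t ∈ without x := by
  induction t with
  | nil => exact (without x).one_mem
  | cons a t ih =>
    have h4 : (FreeGroup.mk (a :: t) : FreeGroup X) =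
        FreeGroup.mk [a] * FreeGroup.mk t := by
      rw [FreeGroup.mul_mk]
      rfl
    rw [h4]
    refine (without x).mul_mem ?_ (ih fun b hb => ht b (List.mem_cons_of_mem _ hb))
    have ha : FreeGroup.of a.1 ∈ without x :=
      Subgroup.subset_closure ⟨a.1, ht a List.mem_cons_self, rfl⟩
    obtain ⟨y, b⟩ := a
    cases b
    · exact (without x).inv_mem ha
    · exact ha

theorem toWord_of_mem_without {X : Type} [DecidableEq X] (x : X) (v : FreeGroup X)
    (hv : v ∈ without x) : ∀ a ∈ v.toWord, a.1 ≠ x := by
  unfold without at hv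
  induction hv using Subgroup.closure_induction with
  | mem v hv =>
    obtain ⟨y, hy, rfl⟩ := hv
    intro a ha
    rw [FreeGroup.toWord_of, List.mem_singleton] at ha
    rw [ha]
    exact hy
  | one => simp
  | mul u v _ _ hu hv =>
    intro a ha
    have h1 := (FreeGroup.toWord_mul_sublist u v).subset ha
    rcases List.mem_append.1 h1 with h2 | h2
    · exact hu a h2
    · exact hv a h2
  | inv u _ hu =>
    intro a ha
    rw [FreeGroup.toWord_inv, FreeGroup.invRev, List.mem_reverse, List.mem_map] at ha
    obtain ⟨b, hb, rfl⟩ := ha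
    exact hu b hb

section tower

variable {X : Type} {r : FreeGroup X}

/-- The homomorphism of the `n`-th stage. -/
noncomputable def tr (s : Stage X r) (n : ℕ) : FreeGroup X →* (tower s n).Q := (tower s n).ρ

theorem tr_succ_eq_iff (s : Stage X r) (n : ℕ) (u v : FreeGroup X) :
    tr s (n + 1) u = tr s (n + 1) v ↔ tr s n u = tr s n v ∧
      ∃ c : MonoidAlgebra ℚ (tower s n).Q, D (tr s n) u - D (tr s n) v = c • D (tr s n) r :=
  nextHom_eq_iff (tr s n) r u v

theorem tr_mono (s : Stage X r) {m n : ℕ} (h : m ≤ n) {u v : FreeGroup X}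
    (huv : tr s n u = tr s n v) : tr s m u = tr s m v := by
  induction n, h using Nat.le_induction with
  | base => exact huv
  | succ n _ ih => exact ih ((tr_succ_eq_iff s n u v).1 huv).1

theorem tr_mono_one (s : Stage X r) {m n : ℕ} (h : m ≤ n) {u : FreeGroup X}
    (hu : tr s n u = 1) : tr s m u = 1 := by
  have : tr s n u = tr s n 1 := by rw [hu, map_one]
  rw [tr_mono s h this, map_one]

theorem D_eq_zero (s : Stage X r) (x : X) (n : ℕ) (hne : (D (tr s n) r) x ≠ 0)
    (v : FreeGroup X) (hv : v ∈ without x) (h : tr s (n + 1) v = 1) : D (tr s n) v = 0 := by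
  have h1 : tr s (n + 1) v = tr s (n + 1) 1 := by rw [h, map_one]
  obtain ⟨-, c, hc⟩ := (tr_succ_eq_iff s n v 1).1 h1
  rw [D_one, sub_zero] at hc
  have h2 : c * (D (tr s n) r) x = 0 := by
    have := DFunLike.congr_fun hc x
    rw [D_without _ x v hv, Finsupp.smul_apply, smul_eq_mul] at this
    exact this.symm
  have h3 := eq_zero_of_mul_eq_zero (tower s n).ptfa.lay _ c hne h2
  rw [hc, h3, zero_smul]

theorem eq_one_of_forall (s : Stage X r) (x : X) (hne : ∀ n, (D (tr s n) r) x ≠ 0)
    (v : FreeGroup X) (hv : v ∈ without x) (h : ∀ n, tr s n v = 1) : v = 1 := by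
  classical
  by_contra hv1
  let Bad : FreeGroup X → Prop := fun u => u ∈ without x ∧ (∀ n, tr s n u = 1) ∧ u ≠ 1
  have hex : ∃ m, ∃ u, Bad u ∧ u.norm = m := ⟨v.norm, v, ⟨hv, h, hv1⟩, rfl⟩
  obtain ⟨v₀, hv₀, hnorm⟩ := Nat.find_spec hex
  have hmin : ∀ u, Bad u → v₀.norm ≤ u.norm := fun u hu => by
    rw [hnorm]
    exact Nat.find_min' hex ⟨u, hu, rfl⟩
  -- no minimal element starts with an inverse letter
  have key : ∀ u, Bad u → u.norm = v₀.norm → ∀ y t, u.toWord = (y, false) :: t → False := by
    intro u hu hun y t hw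
    have hred : FreeGroup.IsReduced ((y, false) :: t) := by
      rw [← hw]
      exact FreeGroup.isReduced_toWord
    have hlett := toWord_of_mem_without x u hu.1
    rw [hw] at hlett
    have h1 : ∀ k, 0 < k → k ≤ t.length → ∃ n, tr s n (FreeGroup.mk (t.take k)) ≠ 1 := by
      intro k hk hkt
      by_contra hcon
      push Not at hcon
      have hredk : FreeGroup.IsReduced (t.take k) :=
        List.IsChain.take (List.IsChain.tail hred) k
      have hnk : (FreeGroup.mk (t.take k)).norm = k := by
        rw [FreeGroup.norm, FreeGroup.toWord_mk, hredk.reduce_eq, List.length_take]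
        omega
      have hbad : Bad (FreeGroup.mk (t.take k)) := by
        refine ⟨mk_mem_without x _ fun a ha =>
          hlett a (List.mem_cons_of_mem _ (List.mem_of_mem_take ha)), hcon, ?_⟩
        intro h0
        rw [h0, FreeGroup.norm_one] at hnk
        omega
      have h2 := hmin _ hbad
      rw [hnk, ← hun, FreeGroup.norm, hw, List.length_cons] at h2
      omega
    -- a common stage
    have h2 : ∃ n, ∀ k, 0 < k → k ≤ t.length → tr s n (FreeGroup.mk (t.take k)) ≠ 1 := by
      have h3 : ∀ k : ℕ, ∃ n, 0 < k → k ≤ t.length → tr s n (FreeGroup.mk (t.take k)) ≠ 1 := by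
        intro k
        by_cases hk : 0 < k ∧ k ≤ t.length
        · obtain ⟨n, hn⟩ := h1 k hk.1 hk.2
          exact ⟨n, fun _ _ => hn⟩
        · exact ⟨0, fun h h' => absurd ⟨h, h'⟩ hk⟩
      choose n hn using h3
      refine ⟨(Finset.range (t.length + 1)).sup n, fun k hk hkt h0 => hn k hk hkt ?_⟩
      exact tr_mono_one s (Finset.le_sup (Finset.mem_range.2 (by omega))) h0
    obtain ⟨n, hn⟩ := h2
    have h4 := D_ne_zero (tr s n) y t hn (by
      intro h5
      cases t with
      | nil => simp at h5
      | cons b t =>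
        rw [List.head?_cons, Option.some_inj] at h5
        subst h5
        have := (FreeGroup.isReduced_cons_cons.1 hred).1 rfl
        exact absurd this (by simp))
    apply h4
    rw [← hw, FreeGroup.mk_toWord]
    exact D_eq_zero s x n (hne n) u hu.1 (hu.2.1 (n + 1))
  -- produce such an element
  have hne0 : v₀.toWord ≠ [] := fun h0 => hv₀.2.2 (FreeGroup.toWord_eq_nil_iff.1 h0)
  have hlast : ∃ init z, v₀.toWord = init ++ [z] :=
    ⟨v₀.toWord.dropLast, v₀.toWord.getLast hne0, (List.dropLast_append_getLast hne0).symm⟩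
  obtain ⟨init, ⟨y', b'⟩, hz⟩ := hlast
  cases b'
  · -- last letter an inverse: conjugate
    have hy' : y' ≠ x := toWord_of_mem_without x v₀ hv₀.1 (y', false) (by rw [hz]; simp)
    have hv0 : v₀ = FreeGroup.mk init * (FreeGroup.of y')⁻¹ := by
      have h5 : v₀ = FreeGroup.mk (init ++ [(y', false)]) := by
        rw [← hz, FreeGroup.mk_toWord]
      rw [h5, ← FreeGroup.mul_mk]
      rfl
    let u := (FreeGroup.of y')⁻¹ * v₀ * FreeGroup.of y'
    have hu : u = FreeGroup.mk ((y', false) :: init) := by
      have h6 : (FreeGroup.mk ((y', false) :: init) : FreeGroup X) =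
          (FreeGroup.of y')⁻¹ * FreeGroup.mk init := by
        rw [← mk_singleton_false, FreeGroup.mul_mk]
        rfl
      rw [h6]
      show (FreeGroup.of y')⁻¹ * v₀ * FreeGroup.of y' = _
      rw [hv0]
      group
    have hymem : FreeGroup.of y' ∈ without x := Subgroup.subset_closure ⟨y', hy', rfl⟩
    have hubad : Bad u := by
      refine ⟨(without x).mul_mem ((without x).mul_mem ((without x).inv_mem hymem) hv₀.1) hymem,
        fun n => ?_, ?_⟩
      · show tr s n ((FreeGroup.of y')⁻¹ * v₀ * FreeGroup.of y') = 1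
        rw [map_mul, map_mul, hv₀.2.1 n, map_inv]
        group
      · intro h0
        apply hv₀.2.2
        have h7 : (FreeGroup.of y')⁻¹ * v₀ * FreeGroup.of y' = 1 := h0
        have h8 : v₀ = FreeGroup.of y' * ((FreeGroup.of y')⁻¹ * v₀ * FreeGroup.of y') *
          (FreeGroup.of y')⁻¹ := by group
        rw [h8, h7]
        group
    have hlen : v₀.norm = init.length + 1 := by
      rw [FreeGroup.norm, hz]
      simp
    have h9 : u.toWord.Sublist ((y', false) :: init) := by
      rw [hu, FreeGroup.toWord_mk]
      exact FreeGroup.Red.sublist FreeGroup.reduce.red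
    have h10 : u.norm = init.length + 1 := by
      apply le_antisymm
      · have := h9.length_le
        rwa [List.length_cons] at this
      · rw [← hlen]
        exact hmin u hubad
    have h11 : u.toWord = (y', false) :: init := by
      apply h9.eq_of_length
      rw [List.length_cons]
      exact h10
    exact key u hubad (by rw [h10, hlen]) y' init h11
  · -- last letter positive: take the inverse
    have hbad : Bad v₀⁻¹ := ⟨(without x).inv_mem hv₀.1, fun n => by
      rw [map_inv, hv₀.2.1 n, inv_one], fun h0 => hv₀.2.2 (inv_eq_one.1 h0)⟩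
    have h12 : (v₀⁻¹).toWord = (y', false) :: FreeGroup.invRev init := by
      rw [FreeGroup.toWord_inv, hz, FreeGroup.invRev, FreeGroup.invRev, List.map_append,
        List.reverse_append]
      rfl
    exact key _ hbad FreeGroup.norm_inv_eq y' _ h12

end tower

end Pool.Agent.H40C
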