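import Mathlib
import Pool.Agent.Lib.MP_98022b_h40.Embed

/-!
# Separation of the positions
-/

set_option autoImplicit false

namespace Pool.Agent.H40C

section words

variable {X : Type} (x : X) (e : ℕ → Bool) (w : ℕ → FreeGroup X) (L : ℕ)

theorem pre_add_period (he : ∀ k, e (k + L) = e k) (hwp : ∀ k, w (k + L) = w k) (k : ℕ) :
    pre x e w (k + L) = pre x e w L * pre x e w k := by
  induction k with
  | zero => simp
  | succ k ih =>
    have h1 : k + 1 + L = k + L + 1 := by omega
    rw [h1, pre_succ, ih, pre_succ, blk, blk, he, hwp, mul_assoc]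

theorem pos_add_period (he : ∀ k, e (k + L) = e k) (hwp : ∀ k, w (k + L) = w k) (k : ℕ) :
    pos x e w (k + L) = pre x e w L * pos x e w k := by
  rw [pos, pos, pre_add_period x e w L he hwp, he, mul_assoc]

theorem pre_mul (l : ℕ) (he : ∀ k, e (k + l) = e k) (hwp : ∀ k, w (k + l) = w k) (m : ℕ) :
    pre x e w (l * m) = pre x e w l ^ m := by
  induction m with
  | zero => simp
  | succ m ih =>
    have h1 : l * (m + 1) = l * m + l := by ring
    rw [h1, pre_add_period x e w l he hwp, ih, pow_succ']

end words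

section

variable {X : Type} {r : FreeGroup X}

theorem D_r_ne_zero {Q : Type} [Group Q] (ρ : FreeGroup X →* Q) (x : X) (e : ℕ → Bool)
    (w : ℕ → FreeGroup X) (L : ℕ) (hL : 0 < L) (hw : ∀ k, w k ∈ without x)
    (coh : ∀ i j, ρ (pos x e w i) = ρ (pos x e w j) → e i = e j) :
    (D ρ (pre x e w L)) x ≠ 0 := by
  classical
  intro h
  have h1 := coeff_D_pre ρ x e w hw L (ρ (pos x e w 0))
  rw [h] at h1
  have h2 : (∑ k ∈ Finset.range L,
      if ρ (pos x e w k) = ρ (pos x e w 0) then sgn (e k) else 0) =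
      sgn (e 0) * ∑ k ∈ Finset.range L,
        if ρ (pos x e w k) = ρ (pos x e w 0) then (1 : ℚ) else 0 := by
    rw [Finset.mul_sum]
    refine Finset.sum_congr rfl fun k _ => ?_
    split_ifs with h
    · rw [coh k 0 h, mul_one]
    · rw [mul_zero]
  rw [h2] at h1
  have h3 : 0 < ∑ k ∈ Finset.range L,
      if ρ (pos x e w k) = ρ (pos x e w 0) then (1 : ℚ) else 0 := by
    refine Finset.sum_pos' (fun k _ => by positivity) ⟨0, Finset.mem_range.2 hL, ?_⟩
    rw [if_pos rfl]
    exact one_pos
  exact mul_ne_zero (sgn_ne_zero (e 0)) h3.ne' h1.symm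

/-- In some stage of the tower the positions are distinct. -/
theorem exists_separated (s : Stage X r) (x : X) (e : ℕ → Bool) (w : ℕ → FreeGroup X) (L : ℕ)
    (hL : 0 < L) (hr : pre x e w L = r) (hw : ∀ k, w k ∈ without x)
    (he : ∀ k, e (k + L) = e k) (hwp : ∀ k, w (k + L) = w k)
    (coh : ∀ i j, s.ρ (pos x e w i) = s.ρ (pos x e w j) → e i = e j)
    (hpow : ∀ v m, 2 ≤ m → r ≠ v ^ m) :
    ∃ n, ∀ i < L, ∀ j < L, tr s n (pos x e w i) = tr s n (pos x e w j) → i = j := by
  classical
  have hrn : ∀ n, tr s n r = 1 := fun n => (tower s n).hr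
  have hper : ∀ n k, tr s n (pos x e w (k + L)) = tr s n (pos x e w k) := by
    intro n k
    rw [pos_add_period x e w L he hwp, hr, map_mul, hrn, one_mul]
  have coh' : ∀ n i j, tr s n (pos x e w i) = tr s n (pos x e w j) → e i = e j :=
    fun n i j h => coh i j (tr_mono s (Nat.zero_le n) h)
  have hne : ∀ n, (D (tr s n) r) x ≠ 0 := by
    intro n h
    have h1 : D (tr s n) (pre x e w L) = D (tr s n) r := congrArg _ hr
    apply D_r_ne_zero (tr s n) x e w L hL hw (coh' n)
    rw [h1]
    exact h
  have hpermod : ∀ n k, tr s n (pos x e w (k % L)) = tr s n (pos x e w k) := by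
    intro n k
    have h1 : ∀ m, tr s n (pos x e w (k % L + m * L)) = tr s n (pos x e w (k % L)) := by
      intro m
      induction m with
      | zero => simp
      | succ m ih =>
        have : k % L + (m + 1) * L = (k % L + m * L) + L := by ring
        rw [this, hper, ih]
    have h2 := h1 (k / L)
    rw [← h2]
    congr 2
    rw [mul_comm]
    exact Nat.mod_add_div k L
  -- the stable stage
  have hstab0 : ∃ n₀, ∀ i < L, ∀ j < L, tr s n₀ (pos x e w i) = tr s n₀ (pos x e w j) →
      ∀ m, tr s m (pos x e w i) = tr s m (pos x e w j) := by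
    have h3 : ∀ p : ℕ × ℕ, ∃ n, tr s n (pos x e w p.1) = tr s n (pos x e w p.2) →
        ∀ m, tr s m (pos x e w p.1) = tr s m (pos x e w p.2) := by
      intro p
      by_cases hp : ∀ m, tr s m (pos x e w p.1) = tr s m (pos x e w p.2)
      · exact ⟨0, fun _ => hp⟩
      · push Not at hp
        obtain ⟨m, hm⟩ := hp
        exact ⟨m, fun h => absurd h hm⟩
    choose n hn using h3
    refine ⟨(Finset.range L ×ˢ Finset.range L).sup n, fun i hi j hj h => ?_⟩
    refine hn (i, j) (tr_mono s (Finset.le_sup (f := n) (b := (i, j)) ?_) h)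
    exact Finset.mem_product.2 ⟨Finset.mem_range.2 hi, Finset.mem_range.2 hj⟩
  obtain ⟨n₀, hn₀⟩ := hstab0
  have hstab : ∀ n, n₀ ≤ n → ∀ i j, tr s n (pos x e w i) = tr s n (pos x e w j) →
      ∀ m, tr s m (pos x e w i) = tr s m (pos x e w j) := by
    intro n hn i j h m
    rw [← hpermod m i, ← hpermod m j]
    refine hn₀ _ (Nat.mod_lt _ hL) _ (Nat.mod_lt _ hL) ?_ m
    rw [hpermod, hpermod]
    exact tr_mono s hn h
  have hstep : ∀ n, n₀ ≤ n → ∃ l, 0 < l ∧ l ≤ L ∧
      (∀ d, 0 < d → d < l → ∀ i, tr s n (pos x e w (i + d)) ≠ tr s n (pos x e w i)) ∧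
      (∀ k, tr s n (pos x e w (k + l)) = tr s n (pos x e w k)) ∧
      (∀ k, fox (tr s n) (w (k + l)) = fox (tr s n) (w k)) := by
    intro n hn
    refine stage_analysis (tower s n).ptfa.lay (tr s n) x e w L hL hw (hper n) (coh' n) ?_
    intro i j h
    have h4 := hstab n hn i j h (n + 1)
    have h5 : e i = e j := coh' n i j h
    have h6 : tr s (n + 1) (pre x e w i) = tr s (n + 1) (pre x e w j) := by
      rw [pos, pos, map_mul, map_mul, h5] at h4
      exact mul_right_cancel h4
    obtain ⟨-, c, hc⟩ := (tr_succ_eq_iff s n _ _).1 h6.symm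
    refine ⟨c, ?_⟩
    rw [hc, hr]
  obtain ⟨l, hl0, hlL, hlmin, hlper, -⟩ := hstep n₀ le_rfl
  -- the same period at all later stages
  have hall : ∀ n, n₀ ≤ n → ∀ k, fox (tr s n) (w (k + l)) = fox (tr s n) (w k) := by
    intro n hn
    obtain ⟨l', hl'0, -, hl'min, hl'per, hfox⟩ := hstep n hn
    have h7 : l' = l := by
      apply le_antisymm
      · by_contra hcon
        push Not at hcon
        exact hl'min l hl0 hcon 0 (hstab n₀ le_rfl _ _ (hlper 0) n)
      · by_contra hcon
        push Not at hcon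
        exact hlmin l' hl'0 hcon 0 (hstab n hn _ _ (hl'per 0) n₀)
    rwa [h7] at hfox
  have hwl : ∀ k, w (k + l) = w k := by
    intro k
    have h8 : (w k)⁻¹ * w (k + l) = 1 := by
      refine eq_one_of_forall s x hne _ ((without x).mul_mem ((without x).inv_mem (hw k))
        (hw (k + l))) fun n => ?_
      have h9 : tr s (max n n₀) ((w k)⁻¹ * w (k + l)) = 1 := by
        have := ((fox_ext_iff _ _ _).1 (hall (max n n₀) (le_max_right _ _) k)).1
        rw [map_mul, map_inv, this]
        group
      exact tr_mono_one s (le_max_left n n₀) h9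
    exact (inv_mul_eq_one.1 h8).symm
  have hel : ∀ k, e (k + l) = e k := fun k => coh' n₀ _ _ (hlper k)
  -- `l` divides `L`
  have hlperm : ∀ k m, tr s n₀ (pos x e w (k + m * l)) = tr s n₀ (pos x e w k) := by
    intro k m
    induction m with
    | zero => simp
    | succ m ih =>
      have : k + (m + 1) * l = (k + m * l) + l := by ring
      rw [this, hlper, ih]
  have hdvd : l ∣ L := by
    rw [Nat.dvd_iff_mod_eq_zero]
    by_contra hcon
    have h10 : tr s n₀ (pos x e w (0 + L % l)) = tr s n₀ (pos x e w 0) := by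
      have h11 := hlperm (L % l) (L / l)
      have h12 : L % l + L / l * l = L := by
        rw [mul_comm]
        exact Nat.mod_add_div L l
      rw [h12] at h11
      have h13 := hper n₀ 0
      rw [zero_add] at h13 ⊢
      rw [← h11, h13]
    exact hlmin (L % l) (Nat.pos_of_ne_zero hcon) (Nat.mod_lt _ hl0) 0 h10
  obtain ⟨m, hm⟩ := hdvd
  have hpow' : r = pre x e w l ^ m := by
    rw [← hr, hm]
    exact pre_mul x e w l hel hwl m
  have hm1 : m = 1 := by
    have h14 : ¬ 2 ≤ m := fun h => hpow _ m h hpow'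
    have h15 : m ≠ 0 := by
      rintro rfl
      omega
    omega
  have hLl : L = l := by rw [hm, hm1, mul_one]
  refine ⟨n₀, fun i hi j hj h => ?_⟩
  rcases lt_trichotomy i j with h16 | h16 | h16
  · exfalso
    refine hlmin (j - i) (by omega) (by omega) i ?_
    have : i + (j - i) = j := by omega
    rw [this, h]
  · exact h16
  · exfalso
    refine hlmin (i - j) (by omega) (by omega) j ?_
    have : j + (i - j) = i := by omega
    rw [this, h]

end

end Pool.Agent.H40C
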