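import Mathlib
import Pool.Agent.Lib.MP_98022b_h40.Separate

/-!
# One-relator groups with a coherent relator
-/

set_option autoImplicit false

namespace Pool.Agent.H40C

/-- Classes of groups with the inheritance properties of the Farrell-Jones conjecture used here:
subgroups, extensions with preimages of cyclic subgroups in the class, solvable groups, and groups
with a homomorphism to the infinite cyclic group with free kernel. -/
structure IsFJSolvableClass (P : ∀ (G : Type) [Group G], Prop) : Prop where
  /-- closed under subgroups (and isomorphisms) -/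
  of_injective : ∀ {G H : Type} [Group G] [Group H] (f : G →* H), Function.Injective f → P H → P G
  /-- closed under extensions: if `Q` and the preimages of the cyclic subgroups of `Q` are in the
  class, so is `G` -/
  extension : ∀ {G Q : Type} [Group G] [Group Q] (f : G →* Q), P Q →
    (∀ q : Q, P ((Subgroup.zpowers q).comap f)) → P G
  /-- solvable groups -/
  solvable : ∀ {G : Type} [Group G], Group.IsSolvable G → P G
  /-- groups with a homomorphism to the infinite cyclic group with free kernel -/
  freeByInt : ∀ {G : Type} [Group G] (f : G →* Multiplicative ℤ), IsFreeGroup f.ker → P G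

/-- No element except `1` has finite order. -/
def TorsionFree (G : Type) [Group G] : Prop := ∀ (g : G) (n : ℕ), 0 < n → g ^ n = 1 → g = 1

theorem PTFA.torsionFree {G : Type} [Group G] (h : PTFA G) : TorsionFree G := by
  induction h with
  | triv h => exact fun g _ _ _ => h g
  | ext f hc ht _ ih =>
    intro g n hn hg
    exact ht g n (ih (f g) n hn (by rw [← map_pow, hg, map_one])) hn hg

theorem PTFA.isSolvable {G : Type} [Group G] (h : PTFA G) : Group.IsSolvable G := by
  induction h with
  | triv h =>
    rename_i G _
    have : Subsingleton G := ⟨fun a b => by rw [h a, h b]⟩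
    infer_instance
  | ext f hc ht _ ih =>
    have h1 : Group.IsSolvable f.ker := Group.isSolvable_of_comm (by
      rintro ⟨a, ha⟩ ⟨b, hb⟩
      exact Subtype.ext (hc a b ha hb))
    exact Group.isSolvable_of_ker_le_range f.ker.subtype f (by rw [Subgroup.range_subtype])

theorem torsionFree_of_free {N : Type} [Group N] (h : IsFreeGroup N) : TorsionFree N := by
  intro g n hn hg
  have e := IsFreeGroup.mulEquiv N
  have h1 : (e.symm g) ^ n = 1 := by rw [← map_pow, hg, map_one]
  have h2 : (e.symm g) ^ n = 1 ^ n := by rw [h1, one_pow]
  have h3 := IsMulTorsionFree.pow_left_injective hn.ne' h2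
  rw [← map_one e.symm] at h3
  exact e.symm.injective h3

theorem torsionFree_of_ker {G Q : Type} [Group G] [Group Q] (φ : G →* Q) (hQ : TorsionFree Q)
    (hK : IsFreeGroup φ.ker) : TorsionFree G := by
  intro g n hn hg
  have h1 : φ g = 1 := hQ (φ g) n hn (by rw [← map_pow, hg, map_one])
  have h2 := torsionFree_of_free hK ⟨g, h1⟩ n hn (Subtype.ext hg)
  exact congrArg Subtype.val h2

namespace IsFJSolvableClass

variable {P : ∀ (G : Type) [Group G], Prop} (hP : IsFJSolvableClass P)
include hP

theorem of_free {N : Type} [Group N] (h : IsFreeGroup N) : P N := by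
  refine hP.freeByInt (1 : N →* Multiplicative ℤ) ?_
  rw [MonoidHom.ker_one]
  exact IsFreeGroup.ofMulEquiv (Subgroup.topEquiv (G := N)).symm

/-- free-by-(torsion-free in `P`) groups are in `P` -/
theorem of_free_ker {G Q : Type} [Group G] [Group Q] (φ : G →* Q) (hQ : P Q)
    (htf : TorsionFree Q) (hK : IsFreeGroup φ.ker) : P G := by
  refine hP.extension φ hQ fun q => ?_
  by_cases hq : q = 1
  · subst hq
    rw [Subgroup.zpowers_one_eq_bot]
    exact hP.of_free hK
  · -- `⟨q⟩` is infinite cyclic
    have hinj : Function.Injective (zpowersHom Q q) := by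
      rw [injective_iff_map_eq_one]
      intro a ha
      rw [zpowersHom_apply] at ha
      by_contra hne
      have h0 : a.toAdd ≠ 0 := fun h => hne (Multiplicative.toAdd.injective h)
      apply hq
      refine htf q a.toAdd.natAbs (Int.natAbs_pos.2 h0) ?_
      rcases Int.natAbs_eq a.toAdd with h | h
      · rw [h] at ha
        simpa using ha
      · rw [h] at ha
        simpa using ha
    have hrange : (zpowersHom Q q).range = Subgroup.zpowers q := by
      ext y
      rw [MonoidHom.mem_range, Subgroup.mem_zpowers_iff]
      constructor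
      · rintro ⟨a, ha⟩
        exact ⟨a.toAdd, by rw [← ha, zpowersHom_apply]⟩
      · rintro ⟨k, hk⟩
        exact ⟨Multiplicative.ofAdd k, by rw [zpowersHom_apply]; exact hk⟩
    let H := (Subgroup.zpowers q).comap φ
    let e : Multiplicative ℤ ≃* (zpowersHom Q q).range := MonoidHom.ofInjective hinj
    let ψ : H →* (zpowersHom Q q).range :=
      (φ.comp H.subtype).codRestrict _ (fun h => by rw [hrange]; exact h.2)
    let g : H →* Multiplicative ℤ := e.symm.toMonoidHom.comp ψ
    have hker : ∀ h : H, g h = 1 ↔ φ h = 1 := by
      intro h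
      show e.symm (ψ h) = 1 ↔ _
      rw [MulEquiv.map_eq_one_iff]
      exact ⟨fun h' => congrArg Subtype.val h', fun h' => Subtype.ext h'⟩
    refine hP.freeByInt g ?_
    let E : φ.ker ≃* g.ker :=
      { toFun := fun a => ⟨⟨a.1, by
          show φ a.1 ∈ Subgroup.zpowers q
          rw [MonoidHom.mem_ker.1 a.2]
          exact Subgroup.one_mem _⟩, (hker _).2 a.2⟩
        invFun := fun b => ⟨b.1.1, (hker b.1).1 b.2⟩
        left_inv := fun _ => rfl
        right_inv := fun _ => rfl
        map_mul' := fun _ _ => rfl }
    exact IsFreeGroup.ofMulEquiv E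

end IsFJSolvableClass

section main

variable {X : Type}

theorem lift_eq {Q : Type} [Group Q] (ρ : FreeGroup X →* Q) :
    FreeGroup.lift (fun y => ρ (FreeGroup.of y)) = ρ := by
  apply FreeGroup.ext_hom
  intro y
  simp

/-- Structure of one-relator groups with a coherent relator. -/
theorem exists_free_ker (x : X) (L : ℕ) (hL : 0 < L) (e : ℕ → Bool)
    (w : ℕ → FreeGroup X) (hw : ∀ k < L, w k ∈ without x)
    (A : Type) [Group A] (hA : PTFA A) (f : FreeGroup X →* A) (hf : f (pre x e w L) = 1)
    (coh : ∀ i < L, ∀ j < L, f (pos x e w i) = f (pos x e w j) → e i = e j)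
    (hpow : ∀ (v : FreeGroup X) (m : ℕ), 2 ≤ m → pre x e w L ≠ v ^ m) :
    ∃ (Q : Type) (_ : Group Q) (φ : PresentedGroup {pre x e w L} →* Q),
      PTFA Q ∧ IsFreeGroup φ.ker := by
  -- periodic extension
  let e' : ℕ → Bool := fun k => e (k % L)
  let w' : ℕ → FreeGroup X := fun k => w (k % L)
  have he' : ∀ k, e' (k + L) = e' k := fun k => by simp [e']
  have hw' : ∀ k, w' (k + L) = w' k := fun k => by simp [w']
  have hwm : ∀ k, w' k ∈ without x := fun k => hw _ (Nat.mod_lt _ hL)
  have hpre : ∀ n, n ≤ L → pre x e' w' n = pre x e w n := by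
    intro n
    induction n with
    | zero => intro _; simp
    | succ n ih =>
      intro hn
      rw [pre_succ, pre_succ, ih (by omega), blk, blk]
      have : n % L = n := Nat.mod_eq_of_lt (by omega)
      simp only [e', w', this]
  have hpos : ∀ k, k < L → pos x e' w' k = pos x e w k := by
    intro k hk
    rw [pos, pos, hpre k hk.le]
    simp only [e', Nat.mod_eq_of_lt hk]
  set r := pre x e w L with hr
  have hr' : pre x e' w' L = r := hpre L le_rfl
  let s : Stage X r := { Q := A, ρ := f, hr := hf, ptfa := hA }
  have hfpos : ∀ k, f (pos x e' w' k) = f (pos x e w (k % L)) := by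
    intro k
    rw [← hpos (k % L) (Nat.mod_lt _ hL)]
    have h1 : ∀ m, f (pos x e' w' (k % L + m * L)) = f (pos x e' w' (k % L)) := by
      intro m
      induction m with
      | zero => simp
      | succ m ih =>
        have : k % L + (m + 1) * L = (k % L + m * L) + L := by ring
        rw [this, pos_add_period x e' w' L he' hw', hr', map_mul, hf, one_mul, ih]
    have h2 := h1 (k / L)
    rw [← h2]
    congr 2
    rw [mul_comm]
    exact (Nat.mod_add_div k L).symm
  obtain ⟨n, hn⟩ := exists_separated s x e' w' L hL hr' hwm he' hw' (by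
    intro i j h
    have h' : f (pos x e' w' i) = f (pos x e' w' j) := h
    rw [hfpos, hfpos] at h'
    exact coh _ (Nat.mod_lt _ hL) _ (Nat.mod_lt _ hL) h') hpow
  let Q := (tower s n).Q
  have hlift : ∀ r' ∈ ({r} : Set (FreeGroup X)),
      FreeGroup.lift (fun y => tr s n (FreeGroup.of y)) r' = 1 := by
    rintro r' hr'
    rw [lift_eq, Set.mem_singleton_iff.1 hr']
    exact (tower s n).hr
  let φ : PresentedGroup {r} →* Q := PresentedGroup.toGroup hlift
  have hφ : ∀ v, φ (PresentedGroup.mk _ v) = tr s n v := by
    intro v
    have : φ.comp (PresentedGroup.mk {r}) = tr s n := by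
      apply FreeGroup.ext_hom
      intro y
      exact PresentedGroup.toGroup.of hlift
    exact DFunLike.congr_fun this v
  refine ⟨Q, inferInstance, φ, (tower s n).ptfa, ?_⟩
  have hlay : Lay φ.range := Lay.of_injective φ.range.subtype φ.range.subtype_injective
    (tower s n).ptfa.lay
  have hfree := isFreeGroup_ker hlay x e' w' L hL (fun k _ => hwm k) r hr' φ.rangeRestrict
    φ.rangeRestrict_surjective (by
      intro i hi j hj h
      apply hn i hi j hj
      rw [← hφ, ← hφ]
      exact congrArg Subtype.val h)
  rwa [MonoidHom.ker_rangeRestrict] at hfree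

end main

end Pool.Agent.H40C
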