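import Mathlib
import Pool.Agent.Lib.MP_98022b_h40.Final

/-!
# The smallest class of groups with the inheritance properties used for one-relator groups
-/

set_option autoImplicit false

namespace Pool.Agent.H40C

/-- The smallest class of groups with the following four properties; the class of groups which
satisfy the K- and L-theoretic Farrell-Jones conjecture with coefficients and finite wreath
products has each of them, so it contains this class. -/
inductive FJSol : (G : Type) → [Group G] → Prop
  /-- solvable groups (Wegner 2015) -/
  | solvable {G : Type} [Group G] (h : Group.IsSolvable G) : FJSol G
  /-- groups with a homomorphism to the infinite cyclic group with free kernel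
  (Brück, Kielak, Wu 2021, after Bestvina, Fujiwara, Wigglesworth) -/
  | freeByInt {G : Type} [Group G] (f : G →* Multiplicative ℤ) (h : IsFreeGroup f.ker) : FJSol G
  /-- subgroups (Bartels, Reich 2007) -/
  | of_injective {G H : Type} [Group G] [Group H] (f : G →* H) (hf : Function.Injective f)
      (h : FJSol H) : FJSol G
  /-- extensions `G → Q` with `Q` and the preimages of all cyclic subgroups of `Q` in the class
  (Bartels, Reich 2007; with finite wreath products the cyclic subgroups suffice) -/
  | extension {G Q : Type} [Group G] [Group Q] (f : G →* Q) (hQ : FJSol Q)
      (h : ∀ q : Q, FJSol ((Subgroup.zpowers q).comap f)) : FJSol G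

theorem isFJSolvableClass_fjSol : IsFJSolvableClass @FJSol where
  of_injective f hf h := FJSol.of_injective f hf h
  extension f hQ h := FJSol.extension f hQ h
  solvable h := FJSol.solvable h
  freeByInt f h := FJSol.freeByInt f h

/-- `FJSol` is the smallest class. -/
theorem FJSol.mem {G : Type} [Group G] (h : FJSol G) {P : ∀ (G : Type) [Group G], Prop}
    (hP : IsFJSolvableClass P) : P G := by
  induction h with
  | solvable h => exact hP.solvable h
  | freeByInt f h => exact hP.freeByInt f h
  | of_injective f hf _ ih => exact hP.of_injective f hf ih
  | extension f _ _ ihQ ih => exact hP.extension f ihQ ih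

end Pool.Agent.H40C
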